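import Mathlib

/-!
# Project GN (MP_20ddb5_an, C^2 Ghys-Sullivan), helper51: the axiom `NoIFS`

`Γ` is a group of increasing homeomorphisms of the line.
-/

set_option autoImplicit false
open Set Filter Topology MeasureTheory

namespace Pool.Agent.H51.GN

/-- all elements of `Γ` are differentiable with positive derivative, and the logarithm of the
derivative is Lipschitz on compact intervals -/
structure Reg (Γ : Subgroup (ℝ ≃o ℝ)) : Prop where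
  diff : ∀ f ∈ Γ, Differentiable ℝ (f : ℝ → ℝ)
  pos : ∀ f ∈ Γ, ∀ t : ℝ, 0 < deriv (f : ℝ → ℝ) t
  lip : ∀ f ∈ Γ, ∀ a b : ℝ, ∃ L : ℝ, 0 ≤ L ∧ ∀ x ∈ Icc a b, ∀ y ∈ Icc a b,
    |Real.log (deriv (f : ℝ → ℝ) x) - Real.log (deriv (f : ℝ → ℝ) y)| ≤ L * |x - y|

/-- `S` maps `[p,q]` into itself, contracts by `1/2` there, and `log S'` is `L`-Lipschitz there -/
structure Br (S : ℝ ≃o ℝ) (p q L : ℝ) : Prop where
  maps : ∀ x ∈ Icc p q, S x ∈ Icc p q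
  half : ∀ x ∈ Icc p q, deriv (S : ℝ → ℝ) x ≤ 1 / 2
  lip : ∀ x ∈ Icc p q, ∀ y ∈ Icc p q,
    |Real.log (deriv (S : ℝ → ℝ) x) - Real.log (deriv (S : ℝ → ℝ) y)| ≤ L * |x - y|

/-- no interval `[p',q']` is covered by the images of itself under contracting branches -/
def NoIFS (Γ : Subgroup (ℝ ≃o ℝ)) : Prop :=
  ∀ p p' q' q L : ℝ, p ≤ p' → p' < q' → q' ≤ q →
    ¬ ∀ y ∈ Icc p' q', ∃ S ∈ Γ, ∃ z ∈ Icc p' q', S z = y ∧ Br S p q L

theorem deriv_mul {Γ : Subgroup (ℝ ≃o ℝ)} (hR : Reg Γ) {f g : ℝ ≃o ℝ} (hf : f ∈ Γ) (hg : g ∈ Γ)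
    (x : ℝ) : deriv ((f * g : ℝ ≃o ℝ) : ℝ → ℝ) x =
      deriv (f : ℝ → ℝ) (g x) * deriv (g : ℝ → ℝ) x := by
  have h1 : HasDerivAt (f : ℝ → ℝ) (deriv (f : ℝ → ℝ) (g x)) (g x) :=
    (hR.diff f hf (g x)).hasDerivAt
  have h2 : HasDerivAt (g : ℝ → ℝ) (deriv (g : ℝ → ℝ) x) x := (hR.diff g hg x).hasDerivAt
  have h3 := (h1.comp x h2).deriv
  exact h3

theorem log_deriv_mul {Γ : Subgroup (ℝ ≃o ℝ)} (hR : Reg Γ) {f g : ℝ ≃o ℝ} (hf : f ∈ Γ)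
    (hg : g ∈ Γ) (x : ℝ) : Real.log (deriv ((f * g : ℝ ≃o ℝ) : ℝ → ℝ) x) =
      Real.log (deriv (f : ℝ → ℝ) (g x)) + Real.log (deriv (g : ℝ → ℝ) x) := by
  rw [deriv_mul hR hf hg, Real.log_mul (hR.pos f hf _).ne' (hR.pos g hg _).ne']

theorem deriv_inv {Γ : Subgroup (ℝ ≃o ℝ)} (hR : Reg Γ) {f : ℝ ≃o ℝ} (hf : f ∈ Γ) (x : ℝ) :
    deriv ((f⁻¹ : ℝ ≃o ℝ) : ℝ → ℝ) (f x) = (deriv (f : ℝ → ℝ) x)⁻¹ := by
  have h1 := deriv_mul hR (Γ.inv_mem hf) hf x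
  rw [inv_mul_cancel] at h1
  have h2 : deriv ((1 : ℝ ≃o ℝ) : ℝ → ℝ) x = 1 := by
    have : ((1 : ℝ ≃o ℝ) : ℝ → ℝ) = fun x => x := rfl
    rw [this]; simp
  rw [h2] at h1
  have h3 := hR.pos f hf x
  field_simp
  linarith

/-- mean value bounds -/
theorem sub_le {f : ℝ ≃o ℝ} (hd : Differentiable ℝ (f : ℝ → ℝ)) {a b M : ℝ} (hab : a ≤ b)
    (h : ∀ x ∈ Icc a b, deriv (f : ℝ → ℝ) x ≤ M) : f b - f a ≤ M * (b - a) := by
  refine (convex_Icc a b).image_sub_le_mul_sub_of_deriv_le hd.continuous.continuousOn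
    hd.differentiableOn (fun x hx => h x (interior_subset hx)) a (left_mem_Icc.2 hab) b
    (right_mem_Icc.2 hab) hab

theorem le_sub {f : ℝ ≃o ℝ} (hd : Differentiable ℝ (f : ℝ → ℝ)) {a b M : ℝ} (hab : a ≤ b)
    (h : ∀ x ∈ Icc a b, M ≤ deriv (f : ℝ → ℝ) x) : M * (b - a) ≤ f b - f a := by
  refine (convex_Icc a b).mul_sub_le_image_sub_of_le_deriv hd.continuous.continuousOn
    hd.differentiableOn (fun x hx => h x (interior_subset hx)) a (left_mem_Icc.2 hab) b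
    (right_mem_Icc.2 hab) hab

theorem abs_sub_le {f : ℝ ≃o ℝ} (hd : Differentiable ℝ (f : ℝ → ℝ)) {p q M : ℝ}
    (h : ∀ x ∈ Icc p q, deriv (f : ℝ → ℝ) x ≤ M) {x y : ℝ} (hx : x ∈ Icc p q)
    (hy : y ∈ Icc p q) : |f x - f y| ≤ M * |x - y| := by
  wlog hxy : x ≤ y generalizing x y
  · rw [abs_sub_comm, abs_sub_comm x y]
    exact this hy hx (le_of_not_ge hxy)
  have h1 := sub_le hd hxy (fun z hz => h z ⟨hx.1.trans hz.1, hz.2.trans hy.2⟩)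
  have h2 := f.monotone hxy
  rw [abs_sub_comm, abs_of_nonneg (sub_nonneg.2 h2), abs_sub_comm, abs_of_nonneg
    (sub_nonneg.2 hxy)]
  exact h1

variable {Γ : Subgroup (ℝ ≃o ℝ)}

/-- products of branches -/
theorem ifs_seq (hR : Reg Γ) {p p' q' q L : ℝ} (hp : p ≤ p') (hpq : p' < q') (hq : q' ≤ q)
    (h : ∀ y ∈ Icc p' q', ∃ S ∈ Γ, ∃ z ∈ Icc p' q', S z = y ∧ Br S p q L)
    {y : ℝ} (hy : y ∈ Icc p' q') (n : ℕ) :
    ∃ W ∈ Γ, ∃ z ∈ Icc p' q', W z = y ∧ (∀ x ∈ Icc p q, W x ∈ Icc p q) ∧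
      (∀ x ∈ Icc p q, deriv (W : ℝ → ℝ) x ≤ (1 / 2) ^ n) ∧
      ∀ x ∈ Icc p q, ∀ x' ∈ Icc p q,
        |Real.log (deriv (W : ℝ → ℝ) x) - Real.log (deriv (W : ℝ → ℝ) x')| ≤
          2 * L * |x - x'| := by
  have hL : 0 ≤ L := by
    obtain ⟨S, -, z, -, -, hS⟩ := h y hy
    have h1 := hS.lip q ⟨by linarith, le_rfl⟩ p ⟨le_rfl, by linarith⟩
    have h2 : 0 < |q - p| := abs_pos.2 (by linarith)
    have h3 := (abs_nonneg _).trans h1
    by_contra hc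
    push Not at hc
    nlinarith
  induction n with
  | zero =>
    have h1 : ∀ x : ℝ, deriv ((1 : ℝ ≃o ℝ) : ℝ → ℝ) x = 1 := by
      intro x
      have : ((1 : ℝ ≃o ℝ) : ℝ → ℝ) = fun x => x := rfl
      rw [this]; simp
    refine ⟨1, Γ.one_mem, y, hy, rfl, fun x hx => hx, fun x _ => by rw [h1]; simp,
      fun x _ x' _ => ?_⟩
    rw [h1, h1, sub_self, abs_zero]
    positivity
  | succ n ih =>
    obtain ⟨W, hW, z, hz, hWz, hWm, hWd, hWl⟩ := ih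
    obtain ⟨S, hS, z', hz', hSz, hB⟩ := h z hz
    refine ⟨W * S, Γ.mul_mem hW hS, z', hz', ?_, ?_, ?_, ?_⟩
    · show W (S z') = y
      rw [hSz, hWz]
    · intro x hx
      exact hWm _ (hB.maps x hx)
    · intro x hx
      rw [deriv_mul hR hW hS, pow_succ]
      have h1 := hWd _ (hB.maps x hx)
      have h2 := hB.half x hx
      have h3 := hR.pos S hS x
      have h4 := hR.pos W hW (S x)
      exact mul_le_mul h1 h2 h3.le (by positivity)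
    · intro x hx x' hx'
      rw [log_deriv_mul hR hW hS, log_deriv_mul hR hW hS]
      have h1 := hWl _ (hB.maps x hx) _ (hB.maps x' hx')
      have h2 := hB.lip x hx x' hx'
      have h3 := abs_sub_le (hR.diff S hS) hB.half hx hx'
      have h4 : Real.log (deriv (W : ℝ → ℝ) (S x)) + Real.log (deriv (S : ℝ → ℝ) x) -
          (Real.log (deriv (W : ℝ → ℝ) (S x')) + Real.log (deriv (S : ℝ → ℝ) x')) =
          (Real.log (deriv (W : ℝ → ℝ) (S x)) - Real.log (deriv (W : ℝ → ℝ) (S x'))) +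
          (Real.log (deriv (S : ℝ → ℝ) x) - Real.log (deriv (S : ℝ → ℝ) x')) := by ring
      rw [h4]
      refine (abs_add_le _ _).trans ?_
      have h5 : 2 * L * |S x - S x'| ≤ 2 * L * (1 / 2 * |x - x'|) :=
        mul_le_mul_of_nonneg_left h3 (by positivity)
      linarith

end Pool.Agent.H51.GN
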