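import Mathlib
import Pool.Agent.H51.GN.Ifs

/-!
# Project GN (MP_20ddb5_an, C^2 Ghys-Sullivan), helper51: calculus of the quantity `N(w; J)`

`Nle w a b t` says `N(w; [a,b]) ≤ t`: `log w'` is `t/(b-a)`-Lipschitz on `[a,b]`;
`Dle w a b d` says that the distortion of `w` on `[a,b]` is at most `d`;
`Ile f a b d` says `|log f'| ≤ d` on `[a,b]`.
-/

set_option autoImplicit false
open Set Filter Topology MeasureTheory

namespace Pool.Agent.H51.GN

variable {Γ : Subgroup (ℝ ≃o ℝ)} {w v f : ℝ ≃o ℝ} {a b t s d : ℝ}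

/-- `log w'` is `t/(b-a)`-Lipschitz on `[a,b]` -/
def Nle (w : ℝ ≃o ℝ) (a b t : ℝ) : Prop :=
  ∀ x ∈ Icc a b, ∀ y ∈ Icc a b,
    |Real.log (deriv (w : ℝ → ℝ) x) - Real.log (deriv (w : ℝ → ℝ) y)| * (b - a) ≤ t * |x - y|

/-- the distortion of `w` on `[a,b]` is at most `d` -/
def Dle (w : ℝ ≃o ℝ) (a b d : ℝ) : Prop :=
  ∀ x ∈ Icc a b, ∀ y ∈ Icc a b,
    |Real.log (deriv (w : ℝ → ℝ) x) - Real.log (deriv (w : ℝ → ℝ) y)| ≤ d

/-- `|log f'| ≤ d` on `[a,b]` -/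
def Ile (f : ℝ ≃o ℝ) (a b d : ℝ) : Prop :=
  ∀ x ∈ Icc a b, |Real.log (deriv (f : ℝ → ℝ) x)| ≤ d

theorem Nle.nonneg (h : Nle w a b t) (hab : a < b) : 0 ≤ t := by
  have h1 := h b ⟨hab.le, le_rfl⟩ a ⟨le_rfl, hab.le⟩
  have h2 : 0 ≤ t * |b - a| := le_trans (mul_nonneg (abs_nonneg _) (by linarith)) h1
  have h3 : 0 < |b - a| := abs_pos.2 (by linarith)
  by_contra hc
  push Not at hc
  nlinarith

theorem Nle.mono (h : Nle w a b t) {t' : ℝ} (ht : t ≤ t') : Nle w a b t' := fun x hx y hy =>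
  (h x hx y hy).trans (mul_le_mul_of_nonneg_right ht (abs_nonneg _))

theorem Dle.mono (h : Dle w a b d) {d' : ℝ} (hd : d ≤ d') : Dle w a b d' := fun x hx y hy =>
  (h x hx y hy).trans hd

theorem Ile.mono (h : Ile w a b d) {d' : ℝ} (hd : d ≤ d') : Ile w a b d' := fun x hx =>
  (h x hx).trans hd

theorem Dle.nonneg (h : Dle w a b d) (hab : a ≤ b) : 0 ≤ d :=
  (abs_nonneg _).trans (h a ⟨le_rfl, hab⟩ a ⟨le_rfl, hab⟩)

theorem Ile.nonneg (h : Ile w a b d) (hab : a ≤ b) : 0 ≤ d :=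
  (abs_nonneg _).trans (h a ⟨le_rfl, hab⟩)

/-- `N(w; J) ≤ t` implies distortion at most `t` -/
theorem Nle.dle (h : Nle w a b t) (hab : a < b) : Dle w a b t := by
  intro x hx y hy
  have h1 := h x hx y hy
  have h2 : |x - y| ≤ b - a := abs_sub_le_of_le_of_le hx.1 hx.2 hy.1 hy.2
  have h3 := h.nonneg hab
  have h4 : 0 < b - a := by linarith
  have h5 : t * |x - y| ≤ t * (b - a) := mul_le_mul_of_nonneg_left h2 h3
  exact le_of_mul_le_mul_right (h1.trans h5) h4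

theorem Ile.dle (h : Ile w a b d) : Dle w a b (2 * d) := by
  intro x hx y hy
  have h1 := abs_le.1 (h x hx)
  have h2 := abs_le.1 (h y hy)
  rw [abs_le]
  constructor <;> linarith

/-- Lipschitz form of `Nle` -/
theorem Nle.lip (h : Nle w a b t) (hab : a < b) {x y : ℝ} (hx : x ∈ Icc a b) (hy : y ∈ Icc a b) :
    |Real.log (deriv (w : ℝ → ℝ) x) - Real.log (deriv (w : ℝ → ℝ) y)| ≤
      t / (b - a) * |x - y| := by
  have h1 := h x hx y hy
  have h4 : 0 < b - a := by linarith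
  rw [div_mul_eq_mul_div, le_div_iff₀ h4]
  exact h1

theorem nle_of_lip {L : ℝ} (h : ∀ x ∈ Icc a b, ∀ y ∈ Icc a b,
    |Real.log (deriv (w : ℝ → ℝ) x) - Real.log (deriv (w : ℝ → ℝ) y)| ≤ L * |x - y|)
    (hab : a ≤ b) : Nle w a b (L * (b - a)) := by
  intro x hx y hy
  have h1 := mul_le_mul_of_nonneg_right (h x hx y hy) (sub_nonneg.2 hab)
  linarith [h1, mul_right_comm L |x - y| (b - a)]

/-- (N2) restriction to a subinterval -/
theorem Nle.sub (h : Nle w a b t) (hab : a < b) {a' b' : ℝ} (ha : a ≤ a') (hab' : a' ≤ b')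
    (hb : b' ≤ b) : Nle w a' b' (t * ((b' - a') / (b - a))) := by
  have h1 := nle_of_lip (w := w) (a := a') (b := b') (L := t / (b - a)) (fun x hx y hy =>
    h.lip hab ⟨ha.trans hx.1, hx.2.trans hb⟩ ⟨ha.trans hy.1, hy.2.trans hb⟩) hab'
  convert h1 using 1
  ring

theorem Nle.sub' (h : Nle w a b t) (hab : a < b) {a' b' : ℝ} (ha : a ≤ a') (hab' : a' ≤ b')
    (hb : b' ≤ b) : Nle w a' b' t := by
  refine (h.sub hab ha hab' hb).mono ?_
  have h1 : (b' - a') / (b - a) ≤ 1 := by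
    rw [div_le_one (by linarith)]
    linarith
  have := h.nonneg hab
  nlinarith

theorem Dle.sub (h : Dle w a b d) {a' b' : ℝ} (ha : a ≤ a') (hb : b' ≤ b) : Dle w a' b' d :=
  fun x hx y hy => h x ⟨ha.trans hx.1, hx.2.trans hb⟩ y ⟨ha.trans hy.1, hy.2.trans hb⟩

theorem Ile.sub (h : Ile w a b d) {a' b' : ℝ} (ha : a ≤ a') (hb : b' ≤ b) : Ile w a' b' d :=
  fun x hx => h x ⟨ha.trans hx.1, hx.2.trans hb⟩

theorem one_Nle : Nle 1 a b 0 := by
  intro x _ y _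
  have h1 : ∀ x : ℝ, Real.log (deriv ((1 : ℝ ≃o ℝ) : ℝ → ℝ) x) = 0 := by
    intro x
    have : ((1 : ℝ ≃o ℝ) : ℝ → ℝ) = fun x => x := rfl
    rw [this]; simp
  rw [h1, h1]
  simp

theorem one_Dle : Dle 1 a b 0 := by
  intro x _ y _
  have h1 : ∀ x : ℝ, Real.log (deriv ((1 : ℝ ≃o ℝ) : ℝ → ℝ) x) = 0 := by
    intro x
    have : ((1 : ℝ ≃o ℝ) : ℝ → ℝ) = fun x => x := rfl
    rw [this]; simp
  rw [h1, h1]
  simp

theorem map_mem (w : ℝ ≃o ℝ) {x : ℝ} (hx : x ∈ Icc a b) : w x ∈ Icc (w a) (w b) :=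
  ⟨w.monotone hx.1, w.monotone hx.2⟩

theorem inv_mem (w : ℝ ≃o ℝ) {x : ℝ} (hx : x ∈ Icc (w a) (w b)) :
    (w⁻¹ : ℝ ≃o ℝ) x ∈ Icc a b ∧ w ((w⁻¹ : ℝ ≃o ℝ) x) = x := by
  have h1 : w ((w⁻¹ : ℝ ≃o ℝ) x) = x := RelIso.apply_inv_self w x
  refine ⟨⟨?_, ?_⟩, h1⟩
  · rw [← w.le_iff_le, h1]; exact hx.1
  · rw [← w.le_iff_le, h1]; exact hx.2

/-- comparison of the increment with the derivative at a point -/
theorem Dle.le_mul (hR : Reg Γ) (hw : w ∈ Γ) (h : Dle w a b d) {x y z : ℝ} (hx : x ∈ Icc a b)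
    (hy : y ∈ Icc a b) (hz : z ∈ Icc a b) (hxy : x ≤ y) :
    w y - w x ≤ Real.exp d * deriv (w : ℝ → ℝ) z * (y - x) := by
  refine sub_le (hR.diff w hw) hxy fun p hp => ?_
  have h1 := le_of_abs_le (h p ⟨hx.1.trans hp.1, hp.2.trans hy.2⟩ z hz)
  have h2 : Real.log (deriv (w : ℝ → ℝ) p) ≤ d + Real.log (deriv (w : ℝ → ℝ) z) := by linarith
  have h3 := Real.exp_le_exp.2 h2
  rwa [Real.exp_log (hR.pos w hw p), Real.exp_add, Real.exp_log (hR.pos w hw z)] at h3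

theorem Dle.mul_le (hR : Reg Γ) (hw : w ∈ Γ) (h : Dle w a b d) {x y z : ℝ} (hx : x ∈ Icc a b)
    (hy : y ∈ Icc a b) (hz : z ∈ Icc a b) (hxy : x ≤ y) :
    deriv (w : ℝ → ℝ) z * (y - x) ≤ Real.exp d * (w y - w x) := by
  have h0 : Real.exp (-d) * deriv (w : ℝ → ℝ) z * (y - x) ≤ w y - w x := by
    refine le_sub (hR.diff w hw) hxy fun p hp => ?_
    have h1 := le_of_abs_le (h z hz p ⟨hx.1.trans hp.1, hp.2.trans hy.2⟩)
    have h2 : -d + Real.log (deriv (w : ℝ → ℝ) z) ≤ Real.log (deriv (w : ℝ → ℝ) p) := by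
      linarith
    have h3 := Real.exp_le_exp.2 h2
    rwa [Real.exp_log (hR.pos w hw p), Real.exp_add, Real.exp_log (hR.pos w hw z)] at h3
  have h4 := mul_le_mul_of_nonneg_left h0 (Real.exp_pos d).le
  have h5 : Real.exp d * (Real.exp (-d) * deriv (w : ℝ → ℝ) z * (y - x)) =
      deriv (w : ℝ → ℝ) z * (y - x) := by
    rw [← mul_assoc, ← mul_assoc, ← Real.exp_add, add_neg_cancel, Real.exp_zero, one_mul]
  linarith

/-- relative sizes are distorted by at most `exp d` -/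
theorem Dle.ratio (hR : Reg Γ) (hw : w ∈ Γ) (h : Dle w a b d) (hab : a < b) {x y : ℝ}
    (hx : x ∈ Icc a b) (hy : y ∈ Icc a b) (hxy : x ≤ y) :
    (w y - w x) * (b - a) ≤ Real.exp d * ((w b - w a) * (y - x)) := by
  obtain ⟨ξ, hξ, hξ'⟩ := exists_deriv_eq_slope (w : ℝ → ℝ) hab
    ((hR.diff _ hw).continuous.continuousOn) ((hR.diff _ hw).differentiableOn)
  have h1 := h.le_mul hR hw hx hy (Ioo_subset_Icc_self hξ) hxy
  rw [hξ'] at h1
  have h4 : 0 < b - a := by linarith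
  have h5 := mul_le_mul_of_nonneg_right h1 h4.le
  refine h5.trans (le_of_eq ?_)
  field_simp

theorem Dle.ratio' (hR : Reg Γ) (hw : w ∈ Γ) (h : Dle w a b d) (hab : a < b) {x y : ℝ}
    (hx : x ∈ Icc a b) (hy : y ∈ Icc a b) (hxy : x ≤ y) :
    (w b - w a) * (y - x) ≤ Real.exp d * ((w y - w x) * (b - a)) := by
  obtain ⟨ξ, hξ, hξ'⟩ := exists_deriv_eq_slope (w : ℝ → ℝ) hab
    ((hR.diff _ hw).continuous.continuousOn) ((hR.diff _ hw).differentiableOn)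
  have h1 := h.mul_le hR hw hx hy (Ioo_subset_Icc_self hξ) hxy
  rw [hξ'] at h1
  have h4 : 0 < b - a := by linarith
  have h5 := mul_le_mul_of_nonneg_right h1 h4.le
  refine le_trans (le_of_eq ?_) (h5.trans (le_of_eq ?_))
  · field_simp
  · ring

/-- (N1) with the distortion `d` of the inner map -/
theorem Nle.mul (hR : Reg Γ) (hw : w ∈ Γ) (hv : v ∈ Γ) (hab : a < b) (hd : Dle w a b d)
    (h : Nle w a b t) (h' : Nle v (w a) (w b) s) :
    Nle (v * w) a b (t + Real.exp d * s) := by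
  intro x hx y hy
  wlog hxy : y ≤ x generalizing x y
  · rw [abs_sub_comm, abs_sub_comm x y]
    exact this y hy x hx (le_of_not_ge hxy)
  rw [log_deriv_mul hR hv hw, log_deriv_mul hR hv hw, add_sub_add_comm]
  have h1 := h x hx y hy
  have h2 := h' _ (map_mem w hx) _ (map_mem w hy)
  have h4 : 0 < b - a := by linarith
  have h6 : 0 < w b - w a := sub_pos.2 (w.strictMono hab)
  have h5 := hd.ratio hR hw hab hy hx hxy
  rw [abs_of_nonneg (sub_nonneg.2 (w.monotone hxy))] at h2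
  rw [abs_of_nonneg (sub_nonneg.2 hxy)] at h1 ⊢
  obtain ⟨A, hA⟩ : ∃ A, A = |Real.log (deriv (v : ℝ → ℝ) (w x)) -
    Real.log (deriv (v : ℝ → ℝ) (w y))| := ⟨_, rfl⟩
  rw [← hA] at h2
  have hs : 0 ≤ s := h'.nonneg (w.strictMono hab)
  have h7 : A * (b - a) ≤ Real.exp d * s * (x - y) := by
    have h8 : A * (b - a) * (w b - w a) ≤ Real.exp d * s * (x - y) * (w b - w a) := by
      calc A * (b - a) * (w b - w a) = (A * (w b - w a)) * (b - a) := by ring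
        _ ≤ s * (w x - w y) * (b - a) := mul_le_mul_of_nonneg_right h2 h4.le
        _ = s * ((w x - w y) * (b - a)) := by ring
        _ ≤ s * (Real.exp d * ((w b - w a) * (x - y))) := mul_le_mul_of_nonneg_left h5 hs
        _ = Real.exp d * s * (x - y) * (w b - w a) := by ring
    exact le_of_mul_le_mul_right h8 h6
  calc _ ≤ (A + |Real.log (deriv (w : ℝ → ℝ) x) - Real.log (deriv (w : ℝ → ℝ) y)|) * (b - a) := by
        rw [hA]
        exact mul_le_mul_of_nonneg_right (abs_add_le _ _) h4.le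
    _ ≤ _ := by rw [add_mul]; linarith

/-- (N1) -/
theorem Nle.mul' (hR : Reg Γ) (hw : w ∈ Γ) (hv : v ∈ Γ) (hab : a < b)
    (h : Nle w a b t) (h' : Nle v (w a) (w b) s) :
    Nle (v * w) a b (t + Real.exp t * s) :=
  Nle.mul hR hw hv hab (h.dle hab) h h'

theorem Dle.mul (hR : Reg Γ) (hw : w ∈ Γ) (hv : v ∈ Γ) {d' : ℝ} (hd : Dle w a b d)
    (h' : Dle v (w a) (w b) d') : Dle (v * w) a b (d + d') := by
  intro x hx y hy
  rw [log_deriv_mul hR hv hw, log_deriv_mul hR hv hw, add_sub_add_comm]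
  have h1 := hd x hx y hy
  have h2 := h' _ (map_mem w hx) _ (map_mem w hy)
  refine (abs_add_le _ _).trans ?_
  linarith

theorem log_deriv_inv (hR : Reg Γ) (hw : w ∈ Γ) (x : ℝ) :
    Real.log (deriv ((w⁻¹ : ℝ ≃o ℝ) : ℝ → ℝ) (w x)) = -Real.log (deriv (w : ℝ → ℝ) x) := by
  rw [deriv_inv hR hw, Real.log_inv]

theorem Dle.inv (hR : Reg Γ) (hw : w ∈ Γ) (hd : Dle w a b d) : Dle w⁻¹ (w a) (w b) d := by
  intro x hx y hy
  obtain ⟨h1, h2⟩ := inv_mem w hx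
  obtain ⟨h3, h4⟩ := inv_mem w hy
  have h5 := hd _ h3 _ h1
  rw [← h2, ← h4, log_deriv_inv hR hw, log_deriv_inv hR hw]
  rwa [neg_sub_neg]

/-- (N3) with the distortion `d` -/
theorem Nle.inv (hR : Reg Γ) (hw : w ∈ Γ) (hab : a < b) (hd : Dle w a b d) (h : Nle w a b t) :
    Nle w⁻¹ (w a) (w b) (Real.exp d * t) := by
  intro x hx y hy
  obtain ⟨h1, h2⟩ := inv_mem w hx
  obtain ⟨h3, h4⟩ := inv_mem w hy
  obtain ⟨x', hx'⟩ : ∃ x', x' = (w⁻¹ : ℝ ≃o ℝ) x := ⟨_, rfl⟩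
  obtain ⟨y', hy'⟩ : ∃ y', y' = (w⁻¹ : ℝ ≃o ℝ) y := ⟨_, rfl⟩
  rw [← hx'] at h1 h2
  rw [← hy'] at h3 h4
  subst h2 h4
  rw [log_deriv_inv hR hw, log_deriv_inv hR hw, neg_sub_neg]
  clear hx' hy' hx hy
  wlog hxy : y' ≤ x' generalizing x' y'
  · rw [abs_sub_comm, abs_sub_comm (w x')]
    exact this y' h3 x' h1 (le_of_not_ge hxy)
  have h5 := h _ h3 _ h1
  have h6 := hd.ratio' hR hw hab h3 h1 hxy
  have h8 := h.nonneg hab
  have h9 : 0 < b - a := by linarith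
  rw [abs_sub_comm y' x', abs_of_nonneg (sub_nonneg.2 hxy)] at h5
  rw [abs_of_nonneg (sub_nonneg.2 (w.monotone hxy))]
  obtain ⟨A, hA⟩ : ∃ A, A = |Real.log (deriv (w : ℝ → ℝ) y') -
    Real.log (deriv (w : ℝ → ℝ) x')| := ⟨_, rfl⟩
  rw [← hA] at h5 ⊢
  have h10 : A * (w b - w a) * (b - a) ≤ Real.exp d * t * (w x' - w y') * (b - a) := by
    calc A * (w b - w a) * (b - a) = (A * (b - a)) * (w b - w a) := by ring
      _ ≤ t * (x' - y') * (w b - w a) :=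
        mul_le_mul_of_nonneg_right h5 (sub_nonneg.2 (w.monotone hab.le))
      _ = t * ((w b - w a) * (x' - y')) := by ring
      _ ≤ t * (Real.exp d * ((w x' - w y') * (b - a))) := mul_le_mul_of_nonneg_left h6 h8
      _ = Real.exp d * t * (w x' - w y') * (b - a) := by ring
  exact le_of_mul_le_mul_right h10 h9

/-- (N3) -/
theorem Nle.inv' (hR : Reg Γ) (hw : w ∈ Γ) (hab : a < b) (h : Nle w a b t) :
    Nle w⁻¹ (w a) (w b) (Real.exp t * t) := Nle.inv hR hw hab (h.dle hab) h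

theorem Ile.inv (hR : Reg Γ) (hw : w ∈ Γ) (h : Ile w a b d) : Ile w⁻¹ (w a) (w b) d := by
  intro x hx
  obtain ⟨h1, h2⟩ := inv_mem w hx
  rw [← h2, log_deriv_inv hR hw, abs_neg]
  exact h _ h1

/-- the derivative of a conjugate -/
theorem log_deriv_conj (hR : Reg Γ) (hw : w ∈ Γ) (hf : f ∈ Γ) (x : ℝ) :
    Real.log (deriv ((w * f * w⁻¹ : ℝ ≃o ℝ) : ℝ → ℝ) (w x)) =
      Real.log (deriv (w : ℝ → ℝ) (f x)) - Real.log (deriv (w : ℝ → ℝ) x) +
      Real.log (deriv (f : ℝ → ℝ) x) := by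
  rw [log_deriv_mul hR (Γ.mul_mem hw hf) (Γ.inv_mem hw), log_deriv_inv hR hw,
    log_deriv_mul hR hw hf]
  have h1 : (w⁻¹ : ℝ ≃o ℝ) (w x) = x := RelIso.inv_apply_self w x
  rw [h1]
  ring

/-- products of a chain `L_(i+1) = h_i L_i`, `g_n = h_(n-1) ... h_0` -/
theorem chain_prod (hR : Reg Γ) (hab : a < b) (h g : ℕ → ℝ ≃o ℝ) (c : ℕ → ℝ) (n : ℕ)
    (hmem : ∀ i < n, h i ∈ Γ) (hg0 : g 0 = 1) (hg : ∀ i < n, g (i + 1) = h i * g i)
    (hc : ∀ i < n, Nle (h i) (g i a) (g i b) (c i)) {K : ℝ}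
    (hK : ∑ i ∈ Finset.range n, c i ≤ K) :
    g n ∈ Γ ∧ Dle (g n) a b K ∧ Nle (g n) a b (Real.exp K * K) := by
  have hpos : ∀ i < n, 0 ≤ c i := fun i hi => (hc i hi).nonneg ((g i).strictMono hab)
  have key : ∀ m ≤ n, g m ∈ Γ ∧ Dle (g m) a b (∑ i ∈ Finset.range m, c i) ∧
      Nle (g m) a b (Real.exp K * ∑ i ∈ Finset.range m, c i) := by
    intro m
    induction m with
    | zero =>
      intro _
      rw [hg0]
      refine ⟨Γ.one_mem, ?_, ?_⟩
      · simpa using one_Dle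
      · simpa using one_Nle
    | succ m ih =>
      intro hm
      obtain ⟨h1, h2, h3⟩ := ih (by omega)
      have hm' : m < n := by omega
      rw [hg m hm', Finset.sum_range_succ]
      refine ⟨Γ.mul_mem (hmem m hm') h1, Dle.mul hR h1 (hmem m hm') h2
        ((hc m hm').dle ((g m).strictMono hab)), ?_⟩
      refine (Nle.mul hR h1 (hmem m hm') hab h2 h3 (hc m hm')).mono ?_
      rw [mul_add]
      have h4 : ∑ i ∈ Finset.range m, c i ≤ K := by
        refine le_trans (Finset.sum_le_sum_of_subset_of_nonneg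
          (Finset.range_subset_range.2 hm'.le) fun i hi _ => hpos i (Finset.mem_range.1 hi)) hK
      have h5 := mul_le_mul_of_nonneg_right (Real.exp_le_exp.2 h4) (hpos m hm')
      linarith
  obtain ⟨h1, h2, h3⟩ := key n le_rfl
  exact ⟨h1, h2.mono hK, h3.mono (mul_le_mul_of_nonneg_left hK (Real.exp_pos K).le)⟩

end Pool.Agent.H51.GN
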