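import Mathlib
import Pool.Agent.H51.GN.NCalc
import Pool.Agent.H24.GN.Def

/-!
# Project GN (MP_20ddb5_an, C^2 Ghys-Sullivan), helper51: `Gq Γ` implies `Reg Γ` and `NoIFS Γ`
-/

set_option autoImplicit false
open Set Filter Topology MeasureTheory

namespace Pool.Agent.H51.GN

open Pool.Agent.H24.GN

variable {Γ : Subgroup (ℝ ≃o ℝ)}

theorem reg_of_gq (h : Gq Γ) : Reg Γ where
  diff f hf := (h.rg f hf).1
  pos f hf := (h.rg f hf).2
  lip f hf a b := by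
    obtain ⟨C, hC, hl⟩ := h.lip f hf
    exact ⟨C, hC.le, fun x _ y _ => hl x y⟩

theorem nb_iff {w : ℝ ≃o ℝ} {a b t : ℝ} : NB w a b t ↔ Nle w a b t := Iff.rfl

theorem db_iff {w : ℝ ≃o ℝ} {a b t : ℝ} : DB w a b t ↔ Dle w a b t := Iff.rfl

theorem noIFS_of_gq (h : Gq Γ) : NoIFS Γ := by
  have hR := reg_of_gq h
  intro p p' q' q L hp hpq hq H
  have hL : 0 ≤ L := by
    obtain ⟨S, -, z, -, -, hS⟩ := H p' ⟨le_rfl, hpq.le⟩
    have h1 := hS.lip q ⟨by linarith, le_rfl⟩ p ⟨le_rfl, by linarith⟩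
    have h2 : 0 < |q - p| := abs_pos.2 (by linarith)
    have h3 := (abs_nonneg _).trans h1
    by_contra hc
    push Not at hc
    nlinarith
  obtain ⟨D, hD⟩ : ∃ D, D = 2 * L * (q' - p') := ⟨_, rfl⟩
  have hD0 : 0 ≤ D := by
    rw [hD]
    have : 0 ≤ q' - p' := by linarith
    positivity
  obtain ⟨M, hM⟩ : ∃ M, M = Real.exp D * D + 1 := ⟨_, rfl⟩
  have hM0 : 0 < M := by rw [hM]; positivity
  obtain ⟨κ, hκ⟩ : ∃ κ, κ = min (q' - p') M⁻¹ := ⟨_, rfl⟩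
  have hκ0 : 0 < κ := by rw [hκ]; exact lt_min (by linarith) (inv_pos.2 hM0)
  have hκ1 : M ≤ κ⁻¹ := by
    rw [le_inv_comm₀ hM0 hκ0, hκ]
    exact min_le_right _ _
  have hsub : Icc p' q' ⊆ {x : ℝ | Con Γ κ x} := by
    intro y hy ρ hρ
    obtain ⟨n, hn⟩ := exists_pow_lt_of_lt_one (show 0 < ρ / (q' - p') from
      div_pos hρ (by linarith)) (show (1 / 2 : ℝ) < 1 by norm_num)
    obtain ⟨W, hW, z, hz, hWz, hWm, hWd, hWl⟩ := ifs_seq hR hp hpq hq H hy n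
    have hI : ∀ x ∈ Icc p' q', x ∈ Icc p q := fun x hx => ⟨hp.trans hx.1, hx.2.trans hq⟩
    have hN : Nle W p' q' D := by
      rw [hD]
      exact nle_of_lip (fun x hx y hy => hWl x (hI x hx) y (hI y hy)) hpq.le
    have hinv := Nle.inv' hR hW hpq hN
    have e1 : (W⁻¹ : ℝ ≃o ℝ) (W p') = p' := RelIso.inv_apply_self W p'
    have e2 : (W⁻¹ : ℝ ≃o ℝ) (W q') = q' := RelIso.inv_apply_self W q'
    refine ⟨W⁻¹, Γ.inv_mem hW, W p', W q', W.strictMono hpq, ?_, ?_, ?_, ?_, ?_⟩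
    · have h1 := sub_le (hR.diff _ hW) hpq.le (fun x hx => hWd x (hI x hx))
      have h2 : (1 / 2 : ℝ) ^ n * (q' - p') ≤ ρ := by
        rw [lt_div_iff₀ (by linarith)] at hn
        exact hn.le
      linarith
    · rw [← hWz]; exact W.monotone hz.1
    · rw [← hWz]; exact W.monotone hz.2
    · exact hinv.mono (by rw [hM] at hκ1; linarith)
    · rw [e1, e2, hκ]
      exact min_le_left _ _
  have h0 := measure_mono_null hsub (h.con κ hκ0)
  rw [Real.volume_Icc, ENNReal.ofReal_eq_zero] at h0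
  linarith

end Pool.Agent.H51.GN
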