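import Mathlib
import Pool.Agent.H51.GN.NCalc

/-!
# Project GN (MP_20ddb5_an, C^2 Ghys-Sullivan), helper51: the NC lemma, core form

`e` fixes `u`, moves all points of `(u, x1]` to the left, is close to the identity on `[u, x1]`
(`|log e'| ≤ δ`, `N(e; [u,x1]) ≤ C`).  Then no `g` in `Γ` with `g'(u) ≥ 8 δ` and distortion at most
`log 2` on the relevant interval sends `u` to a point `c` of `(u, x1)`.

PROOF.  `v = c - e c`, `[p,q] = [c+v, c+5v]`, `[p',q'] = [c+2v, c+4v]`; for `y` in `[p',q']` the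
point `z = g⁻¹ y` is at distance at most `8v/g'(u)` from `u`; there is `k` with `z = e^k y'`,
`y'` in `[p',q']`; `S = g e^k` is a contracting branch.
-/

set_option autoImplicit false
open Set Filter Topology MeasureTheory

namespace Pool.Agent.H51.GN

variable {Γ : Subgroup (ℝ ≃o ℝ)}

theorem log_deriv_one (x : ℝ) : Real.log (deriv ((1 : ℝ ≃o ℝ) : ℝ → ℝ) x) = 0 := by
  have : ((1 : ℝ ≃o ℝ) : ℝ → ℝ) = fun x => x := rfl
  rw [this]; simp

/-- distortion of iterates, additive form -/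
theorem iter_dist (hR : Reg Γ) {e : ℝ ≃o ℝ} (he : e ∈ Γ) {u x1 Λ : ℝ}
    (hm : ∀ x ∈ Icc u x1, e x ∈ Icc u x1)
    (hl : ∀ x ∈ Icc u x1, ∀ y ∈ Icc u x1,
      |Real.log (deriv (e : ℝ → ℝ) x) - Real.log (deriv (e : ℝ → ℝ) y)| ≤ Λ * |x - y|)
    (n : ℕ) {x y : ℝ} (hx : x ∈ Icc u x1) (hy : y ∈ Icc u x1) :
    |Real.log (deriv ((e ^ n : ℝ ≃o ℝ) : ℝ → ℝ) x) -
      Real.log (deriv ((e ^ n : ℝ ≃o ℝ) : ℝ → ℝ) y)| ≤
      Λ * ∑ j ∈ Finset.range n, |(e ^ j) x - (e ^ j) y| := by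
  have hmn : ∀ n : ℕ, ∀ x ∈ Icc u x1, (e ^ n) x ∈ Icc u x1 := by
    intro n
    induction n with
    | zero => intro x hx; exact hx
    | succ n ih => intro x hx; rw [pow_succ', RelIso.mul_apply]; exact hm _ (ih x hx)
  induction n with
  | zero => rw [pow_zero, log_deriv_one, log_deriv_one]; simp
  | succ n ih =>
    rw [pow_succ', log_deriv_mul hR he (Γ.pow_mem he n), log_deriv_mul hR he (Γ.pow_mem he n),
      Finset.sum_range_succ, mul_add]
    have h1 := hl _ (hmn n x hx) _ (hmn n y hy)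
    rw [add_sub_add_comm]
    refine (abs_add_le _ _).trans ?_
    linarith

/-- a map near the identity which moves `(u,x1]` to the left -/
structure Lt (e : ℝ ≃o ℝ) (u x1 δ : ℝ) : Prop where
  lt : u < x1
  fix : e u = u
  mv : ∀ x ∈ Ioc u x1, e x < x
  low : ∀ x ∈ Icc u x1, ∀ y ∈ Icc u x1, x ≤ y → (1 - δ) * (y - x) ≤ e y - e x
  upp : ∀ x ∈ Icc u x1, ∀ y ∈ Icc u x1, x ≤ y → e y - e x ≤ (1 + 2 * δ) * (y - x)

theorem lt_of_ile (hR : Reg Γ) {e : ℝ ≃o ℝ} (he : e ∈ Γ) {u x1 δ : ℝ} (hux : u < x1)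
    (heu : e u = u) (hmv : ∀ x ∈ Ioc u x1, e x < x) (hδ : Ile e u x1 δ) (hδ1 : δ ≤ 1 / 2) :
    Lt e u x1 δ := by
  have hδ0 := hδ.nonneg hux.le
  refine ⟨hux, heu, hmv, fun x hx y hy hxy => ?_, fun x hx y hy hxy => ?_⟩
  · refine le_sub (hR.diff e he) hxy fun p hp => ?_
    have h1 := hδ p ⟨hx.1.trans hp.1, hp.2.trans hy.2⟩
    have h2 := (abs_le.1 h1).1
    have h3 := Real.exp_le_exp.2 h2
    rw [Real.exp_log (hR.pos e he p)] at h3
    have h4 := Real.add_one_le_exp (-δ)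
    linarith
  · refine sub_le (hR.diff e he) hxy fun p hp => ?_
    have h1 := hδ p ⟨hx.1.trans hp.1, hp.2.trans hy.2⟩
    have h2 := (abs_le.1 h1).2
    have h3 := Real.exp_le_exp.2 h2
    rw [Real.exp_log (hR.pos e he p)] at h3
    have h4 := Real.add_one_le_exp (-δ)
    have h5 : Real.exp δ * Real.exp (-δ) = 1 := by rw [← Real.exp_add]; simp
    have h6 : Real.exp δ * (1 - δ) ≤ 1 := by
      rw [← h5]
      exact mul_le_mul_of_nonneg_left (by linarith) (Real.exp_pos _).le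
    have h7 : Real.exp δ ≤ 1 + 2 * δ := by
      by_contra hc
      push Not at hc
      nlinarith
    linarith

namespace Lt

variable {e : ℝ ≃o ℝ} {u x1 δ : ℝ}

theorem maps (h : Lt e u x1 δ) {x : ℝ} (hx : x ∈ Icc u x1) : e x ∈ Icc u x := by
  constructor
  · rw [← h.fix]
    exact e.monotone hx.1
  · rcases hx.1.eq_or_lt with h1 | h1
    · rw [← h1, h.fix]
    · exact (h.mv x ⟨h1, hx.2⟩).le

theorem maps' (h : Lt e u x1 δ) {x : ℝ} (hx : x ∈ Icc u x1) : e x ∈ Icc u x1 :=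
  ⟨(h.maps hx).1, (h.maps hx).2.trans hx.2⟩

theorem pow_maps (h : Lt e u x1 δ) {x : ℝ} (hx : x ∈ Icc u x1) (n : ℕ) :
    (e ^ n) x ∈ Icc u x := by
  induction n with
  | zero => exact ⟨hx.1, le_rfl⟩
  | succ n ih =>
    rw [pow_succ', RelIso.mul_apply]
    have h1 := h.maps (x := (e ^ n) x) ⟨ih.1, ih.2.trans hx.2⟩
    exact ⟨h1.1, h1.2.trans ih.2⟩

theorem pow_maps' (h : Lt e u x1 δ) {x : ℝ} (hx : x ∈ Icc u x1) (n : ℕ) :
    (e ^ n) x ∈ Icc u x1 := ⟨(h.pow_maps hx n).1, (h.pow_maps hx n).2.trans hx.2⟩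

/-- (S1) -/
theorem step_le (h : Lt e u x1 δ) {x : ℝ} (hx : x ∈ Icc u x1) : x - e x ≤ δ * (x - u) := by
  have h1 := h.low u ⟨le_rfl, h.lt.le⟩ x hx hx.1
  rw [h.fix] at h1
  linarith

/-- iterates tend to `u` -/
theorem exists_pow (h : Lt e u x1 δ) {x z : ℝ} (hx : x ∈ Icc u x1) (hz : u < z) :
    ∃ n : ℕ, (e ^ n) x ≤ z := by
  by_contra hc
  push Not at hc
  have hanti : Antitone fun n : ℕ => (e ^ n) x := by
    refine antitone_nat_of_succ_le fun n => ?_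
    rw [pow_succ', RelIso.mul_apply]
    exact (h.maps (h.pow_maps' hx n)).2
  have hbd : BddBelow (range fun n : ℕ => (e ^ n) x) :=
    ⟨u, by rintro _ ⟨n, rfl⟩; exact (h.pow_maps hx n).1⟩
  have hlim := tendsto_atTop_ciInf hanti hbd
  set l := ⨅ n : ℕ, (e ^ n) x with hl
  have hzl : z ≤ l := le_ciInf fun n => (hc n).le
  have hlx : l ≤ x := ciInf_le hbd 0
  have h1 : Tendsto (fun n : ℕ => e ((e ^ n) x)) atTop (𝓝 (e l)) :=
    (e.continuous.tendsto l).comp hlim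
  have h2 : Tendsto (fun n : ℕ => (e ^ (n + 1)) x) atTop (𝓝 l) :=
    hlim.comp (tendsto_add_atTop_nat 1)
  have h3 : (fun n : ℕ => (e ^ (n + 1)) x) = fun n : ℕ => e ((e ^ n) x) := by
    funext n
    rw [pow_succ', RelIso.mul_apply]
  rw [h3] at h2
  have h4 := tendsto_nhds_unique h1 h2
  have h5 := h.mv l ⟨lt_of_lt_of_le hz hzl, hlx.trans hx.2⟩
  linarith

/-- sum of the lengths of the intervals `e^j [p,q]` when `e^5 q ≤ p` -/
theorem sum_le (h : Lt e u x1 δ) {p q : ℝ} (hp : p ∈ Icc u x1) (hq : q ∈ Icc u x1)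
    (h5 : (e ^ 5) q ≤ p) (k : ℕ) :
    ∑ j ∈ Finset.range k, ((e ^ j) q - (e ^ j) p) ≤ 5 * (x1 - u) := by
  have h1 : ∀ j : ℕ, (e ^ j) q - (e ^ j) p ≤
      (∑ i ∈ Finset.range 5, (e ^ (j + i)) q) - ∑ i ∈ Finset.range 5, (e ^ (j + 1 + i)) q := by
    intro j
    have h2 : (e ^ (j + 5)) q ≤ (e ^ j) p := by
      rw [pow_add, RelIso.mul_apply]
      exact (e ^ j).monotone h5
    have e1 : j + 1 + 0 = j + 1 := by ring
    have e2 : j + 1 + 1 = j + 2 := by ring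
    have e3 : j + 1 + 2 = j + 3 := by ring
    have e4 : j + 1 + 3 = j + 4 := by ring
    have e5 : j + 1 + 4 = j + 5 := by ring
    have e0 : j + 0 = j := by ring
    simp only [Finset.sum_range_succ, Finset.sum_range_zero, e0, e1, e2, e3, e4, e5]
    linarith
  have h2 : ∑ j ∈ Finset.range k, ((e ^ j) q - (e ^ j) p) ≤
      ∑ j ∈ Finset.range k, ((∑ i ∈ Finset.range 5, (e ^ (j + i)) q) -
        ∑ i ∈ Finset.range 5, (e ^ (j + 1 + i)) q) := Finset.sum_le_sum fun j _ => h1 j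
  rw [Finset.sum_range_sub' (fun j => ∑ i ∈ Finset.range 5, (e ^ (j + i)) q)] at h2
  refine h2.trans ?_
  rw [← Finset.sum_sub_distrib]
  have h3 : ∀ i ∈ Finset.range 5, (e ^ (0 + i)) q - (e ^ (k + i)) q ≤ x1 - u := by
    intro i _
    have h4 := (h.pow_maps' hq (0 + i)).2
    have h6 := (h.pow_maps' hq (k + i)).1
    linarith
  refine (Finset.sum_le_sum h3).trans (le_of_eq ?_)
  rw [Finset.sum_const, Finset.card_range]
  simp

/-- (S2): the steps at `c + t v`, `t ≤ 6` -/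
theorem step_near (h : Lt e u x1 δ) (hδ0 : 0 ≤ δ) (hδ : δ ≤ 1 / 1000) {c v : ℝ}
    (hc : u ≤ c) (hv : v = c - e c) (hv0 : 0 < v) (hc6 : c + 5 * v ≤ x1) {x : ℝ}
    (hx : x ∈ Icc c (c + 5 * v)) : 4 / 5 * v ≤ x - e x ∧ x - e x ≤ 6 / 5 * v := by
  have hcI : c ∈ Icc u x1 := ⟨hc, by linarith⟩
  have hxI : x ∈ Icc u x1 := ⟨hc.trans hx.1, hx.2.trans hc6⟩
  have h1 := h.low c hcI x hxI hx.1
  have h2 := h.upp c hcI x hxI hx.1
  have h3 : δ * (x - c) ≤ 1 / 1000 * (5 * v) :=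
    mul_le_mul hδ (by linarith [hx.2]) (by linarith [hx.1]) (by norm_num)
  constructor <;> nlinarith

/-- `e^5` maps `c + 5v` below `c + v` -/
theorem five (h : Lt e u x1 δ) (hδ0 : 0 ≤ δ) (hδ : δ ≤ 1 / 1000) {c v : ℝ}
    (hc : u ≤ c) (hv : v = c - e c) (hv0 : 0 < v) (hc6 : c + 5 * v ≤ x1) :
    (e ^ 5) (c + 5 * v) ≤ c + v := by
  by_contra hcon
  push Not at hcon
  have hq : c + 5 * v ∈ Icc u x1 := ⟨by linarith, by linarith⟩
  have hanti : ∀ n : ℕ, (e ^ (n + 1)) (c + 5 * v) ≤ (e ^ n) (c + 5 * v) := by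
    intro n
    rw [pow_succ', RelIso.mul_apply]
    exact (h.maps (h.pow_maps' hq n)).2
  have hup : ∀ n : ℕ, (e ^ n) (c + 5 * v) ≤ c + 5 * v := fun n => (h.pow_maps hq n).2
  have hanti' : Antitone fun n : ℕ => (e ^ n) (c + 5 * v) := antitone_nat_of_succ_le hanti
  have hst : ∀ n : ℕ, n ≤ 5 → (e ^ n) (c + 5 * v) ≤ c + 5 * v - n * (4 / 5 * v) := by
    intro n
    induction n with
    | zero => intro _; simp
    | succ n ih =>
      intro hn
      have h0 := ih (by omega)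
      have h2 : (e ^ 5) (c + 5 * v) ≤ (e ^ n) (c + 5 * v) := hanti' (by omega)
      have h1 := (h.step_near hδ0 hδ hc hv hv0 hc6 (x := (e ^ n) (c + 5 * v))
        ⟨by linarith, by linarith [hup n]⟩).1
      rw [pow_succ', RelIso.mul_apply]
      push_cast
      linarith
  have := hst 5 le_rfl
  push_cast at this
  linarith

/-- the return: every `z` in `(u, c]` is `e^k y'` with `y'` in `[c+2v, c+4v]` -/
theorem exists_ret (h : Lt e u x1 δ) (hδ0 : 0 ≤ δ) (hδ : δ ≤ 1 / 1000) {c v : ℝ}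
    (hc : u ≤ c) (hv : v = c - e c) (hv0 : 0 < v) (hc6 : c + 5 * v ≤ x1) {z : ℝ}
    (hz : u < z) (hzc : z ≤ c) :
    ∃ k : ℕ, ∃ y ∈ Icc (c + 2 * v) (c + 4 * v), (e ^ k) y = z ∧
      (e ^ k) (c + 5 * v) - (e ^ k) (c + v) ≤ 10 * δ * (z - u) ∧
      (e ^ k) (c + v) ≤ z ∧ z ≤ (e ^ k) (c + 5 * v) := by
  have hp' : c + 2 * v ∈ Icc u x1 := ⟨by linarith, by linarith⟩
  have hq' : c + 4 * v ∈ Icc u x1 := ⟨by linarith, by linarith⟩
  have hq : c + 5 * v ∈ Icc u x1 := ⟨by linarith, by linarith⟩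
  have hex := h.exists_pow hp' hz
  classical
  set k := Nat.find hex with hk
  have hk1 : (e ^ k) (c + 2 * v) ≤ z := Nat.find_spec hex
  have hk0 : k ≠ 0 := by
    intro h0
    rw [h0] at hk1
    have : ((e ^ 0 : ℝ ≃o ℝ)) (c + 2 * v) = c + 2 * v := rfl
    rw [this] at hk1
    linarith
  obtain ⟨m, hm⟩ := Nat.exists_eq_succ_of_ne_zero hk0
  have hk2 : z < (e ^ m) (c + 2 * v) := by
    have := Nat.find_min hex (m := m) (by omega)
    exact not_le.1 this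
  have hk3 : z ≤ (e ^ k) (c + 4 * v) := by
    have h1 := (h.step_near hδ0 hδ hc hv hv0 hc6 (x := c + 4 * v)
      ⟨by linarith, by linarith⟩).2
    have h2 : c + 2 * v ≤ e (c + 4 * v) := by linarith
    have h3 := (e ^ m).monotone h2
    have h4 : (e ^ k) (c + 4 * v) = (e ^ m) (e (c + 4 * v)) := by
      rw [hm, pow_succ]; rfl
    rw [h4]
    linarith
  set y := ((e ^ k)⁻¹ : ℝ ≃o ℝ) z with hy
  have hey : (e ^ k) y = z := RelIso.apply_inv_self (e ^ k) z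
  have hkp : (e ^ k) (c + v) ≤ (e ^ k) (c + 2 * v) := (e ^ k).monotone (by linarith)
  have hkq : (e ^ k) (c + 4 * v) ≤ (e ^ k) (c + 5 * v) := (e ^ k).monotone (by linarith)
  refine ⟨k, y, ⟨?_, ?_⟩, hey, ?_, hkp.trans hk1, hk3.trans hkq⟩
  · rw [← (e ^ k).le_iff_le, hey]; exact hk1
  · rw [← (e ^ k).le_iff_le, hey]; exact hk3
  · have h5 := h.five hδ0 hδ hc hv hv0 hc6
    set w := (e ^ k) (c + 5 * v) with hw
    have hwI : ∀ n : ℕ, (e ^ n) w ∈ Icc u x1 := fun n => h.pow_maps' (h.pow_maps' hq k) n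
    have h6 : (e ^ 5) w ≤ (e ^ k) (c + v) := by
      have : (e ^ 5) w = (e ^ k) ((e ^ 5) (c + 5 * v)) := by
        rw [hw, ← RelIso.mul_apply, ← RelIso.mul_apply, ← pow_add, ← pow_add, add_comm]
      rw [this]
      exact (e ^ k).monotone h5
    have hstep : ∀ n : ℕ, (e ^ n) w - (e ^ (n + 1)) w ≤ δ * (w - u) := by
      intro n
      have h7 := h.step_le (hwI n)
      have h8 := (h.pow_maps (h.pow_maps' hq k) n).2
      rw [pow_succ', RelIso.mul_apply]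
      have h9 : δ * ((e ^ n) w - u) ≤ δ * (w - u) :=
        mul_le_mul_of_nonneg_left (by linarith) hδ0
      linarith
    have hst : ∀ n : ℕ, w - (e ^ n) w ≤ n * (δ * (w - u)) := by
      intro n
      induction n with
      | zero => simp
      | succ n ih =>
        have := hstep n
        push_cast
        linarith
    have h10 : w - (e ^ 5) w ≤ 5 * δ * (w - u) := by
      have := hst 5
      push_cast at this
      linarith
    have h11 : w - u ≤ 2 * (z - u) := by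
      have h12 : (e ^ 5) w ≤ z := h6.trans (hkp.trans hk1)
      have h13 : δ * (w - u) ≤ 1 / 1000 * (w - u) :=
        mul_le_mul_of_nonneg_right hδ (by linarith [(hwI 0).1, show (e ^ 0) w = w from rfl])
      linarith
    have h14 : 5 * δ * (w - u) ≤ 5 * δ * (2 * (z - u)) :=
      mul_le_mul_of_nonneg_left h11 (by positivity)
    linarith

end Lt

/-- the NC lemma, core form -/
theorem nc_core (hR : Reg Γ) (hN : NoIFS Γ) {e g : ℝ ≃o ℝ} (he : e ∈ Γ) (hg : g ∈ Γ)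
    {u x1 δ C G : ℝ} (hux : u < x1) (heu : e u = u) (hmv : ∀ x ∈ Ioc u x1, e x < x)
    (hδ : Ile e u x1 δ) (hC : Nle e u x1 C)
    (hδC : δ * (Real.exp G * Real.exp G) * Real.exp (5 * C) ≤ 1 / 1000)
    {c v z2 : ℝ} (hgc : g u = c) (hc : u < c) (hcx : c ≤ x1) (hv : v = c - e c)
    (hc6 : c + 5 * v ≤ x1) (hz2 : g z2 = c + 5 * v) (hgd : Dle g u z2 G)
    (hgu : 4 * Real.exp G * δ ≤ deriv (g : ℝ → ℝ) u) : False := by
  have hδ0 := hδ.nonneg hux.le
  have hC0 := hC.nonneg hux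
  have hcI : c ∈ Icc u x1 := ⟨hc.le, hcx⟩
  have hv0 : 0 < v := by
    have := hmv c ⟨hc, hcx⟩
    linarith
  have huz2 : u < z2 := by rw [← g.lt_iff_lt, hz2, hgc]; linarith
  have hG0 := hgd.nonneg huz2.le
  have hK1 : 1 ≤ Real.exp (5 * C) := Real.one_le_exp (by positivity)
  obtain ⟨Q, hQ⟩ : ∃ Q, Q = Real.exp G := ⟨_, rfl⟩
  have hQ1 : 1 ≤ Q := by rw [hQ]; exact Real.one_le_exp hG0
  rw [← hQ] at hδC hgu
  have hδQ : δ * (Q * Q) ≤ 1 / 1000 := by
    have h1 : 0 ≤ δ * (Q * Q) := by positivity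
    exact le_trans (le_mul_of_one_le_right h1 hK1) hδC
  have hδ1 : δ ≤ 1 / 1000 := by
    have h1 : 1 ≤ Q * Q := one_le_mul_of_one_le_of_one_le hQ1 hQ1
    exact le_trans (le_mul_of_one_le_right hδ0 h1) hδQ
  have h := lt_of_ile hR he hux heu hmv hδ (by linarith)
  have hvle : v ≤ δ * (c - u) := by rw [hv]; exact h.step_le hcI
  have hδpos : 0 < δ := by
    rcases hδ0.eq_or_lt with h1 | h1
    · rw [← h1, zero_mul] at hvle; linarith
    · exact h1
  have hD0 := hR.pos g hg u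
  obtain ⟨Lg, hLg0, hLg⟩ := hR.lip g hg u x1
  -- constants
  set E : ℝ := Real.exp (5 * C) with hE
  refine hN (c + v) (c + 2 * v) (c + 4 * v) (c + 5 * v)
    (Lg * (E * (x1 - u) / (4 * v)) + C / (x1 - u) * (E * (5 * (x1 - u)) / (4 * v)))
    (by linarith) (by linarith) (by linarith) fun y hy => ?_
  obtain ⟨z, hz⟩ : ∃ z, z = (g⁻¹ : ℝ ≃o ℝ) y := ⟨_, rfl⟩
  have hgz : g z = y := by rw [hz]; exact RelIso.apply_inv_self g y
  have huz : u < z := by rw [← g.lt_iff_lt, hgz, hgc]; linarith [hy.1]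
  have hzz2 : z < z2 := by rw [← g.lt_iff_lt, hgz, hz2]; linarith [hy.2]
  have hzI : z ∈ Icc u z2 := ⟨huz.le, hzz2.le⟩
  have huI : u ∈ Icc u z2 := ⟨le_rfl, huz2.le⟩
  have h1 : deriv (g : ℝ → ℝ) u * (z - u) ≤ 4 * Q * v := by
    have h2 := hgd.mul_le hR hg huI hzI huI huz.le
    rw [← hQ, hgz, hgc] at h2
    have h3 : Q * (y - c) ≤ Q * (4 * v) := mul_le_mul_of_nonneg_left (by linarith [hy.2])
      (by linarith)
    linarith
  have hzc : z ≤ c := by
    by_contra hcon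
    push Not at hcon
    have h2 : deriv (g : ℝ → ℝ) u * (c - u) < deriv (g : ℝ → ℝ) u * (z - u) :=
      mul_lt_mul_of_pos_left (by linarith) hD0
    have h3 : 4 * Q * δ * (c - u) ≤ deriv (g : ℝ → ℝ) u * (c - u) :=
      mul_le_mul_of_nonneg_right hgu (by linarith)
    have h4 : 4 * Q * v ≤ 4 * Q * (δ * (c - u)) := mul_le_mul_of_nonneg_left hvle (by positivity)
    linarith
  obtain ⟨k, y', hy', hky, hkd, hkz1, hkz2⟩ := h.exists_ret hδ0 hδ1 hc.le hv hv0 hc6 huz hzc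
  have hpI : c + v ∈ Icc u x1 := ⟨by linarith, by linarith⟩
  have hqI : c + 5 * v ∈ Icc u x1 := ⟨by linarith, by linarith⟩
  have h5 := h.five hδ0 hδ1 hc.le hv hv0 hc6
  have hsum := fun k => h.sum_le hpI hqI h5 k
  -- `e^k q ≤ z2`
  have hw : (e ^ k) (c + 5 * v) ≤ z2 := by
    by_contra hcon
    push Not at hcon
    have h2 := hgd.le_mul hR hg hzI ⟨huz2.le, le_rfl⟩ huI hzz2.le
    rw [← hQ, hgz, hz2] at h2
    have h3 : z2 - z ≤ 10 * δ * (z - u) := by linarith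
    have h4 : Q * deriv (g : ℝ → ℝ) u * (z2 - z) ≤
        Q * deriv (g : ℝ → ℝ) u * (10 * δ * (z - u)) :=
      mul_le_mul_of_nonneg_left h3 (by positivity)
    have h6 : 10 * δ * Q * (deriv (g : ℝ → ℝ) u * (z - u)) ≤ 10 * δ * Q * (4 * Q * v) :=
      mul_le_mul_of_nonneg_left h1 (by positivity)
    have h7 : Q * deriv (g : ℝ → ℝ) u * (10 * δ * (z - u)) =
        10 * δ * Q * (deriv (g : ℝ → ℝ) u * (z - u)) := by ring
    have h8 : δ * (Q * Q) * v ≤ 1 / 1000 * v := mul_le_mul_of_nonneg_right hδQ hv0.le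
    have h9 : 10 * δ * Q * (4 * Q * v) = 40 * (δ * (Q * Q) * v) := by ring
    linarith [hy.2]
  -- distortion of the iterates
  have hux' : 0 < x1 - u := by linarith
  have hmono : ∀ j : ℕ, ∀ x ∈ Icc (c + v) (c + 5 * v), ∀ x' ∈ Icc (c + v) (c + 5 * v),
      |(e ^ j) x - (e ^ j) x'| ≤ (e ^ j) (c + 5 * v) - (e ^ j) (c + v) := by
    intro j x hx x' hx'
    exact abs_sub_le_of_le_of_le ((e ^ j).monotone hx.1) ((e ^ j).monotone hx.2)
      ((e ^ j).monotone hx'.1) ((e ^ j).monotone hx'.2)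
  have hsub : ∀ x ∈ Icc (c + v) (c + 5 * v), x ∈ Icc u x1 := fun x hx =>
    ⟨hpI.1.trans hx.1, hx.2.trans hqI.2⟩
  have hdist : ∀ j : ℕ, ∀ x ∈ Icc (c + v) (c + 5 * v), ∀ x' ∈ Icc (c + v) (c + 5 * v),
      |Real.log (deriv ((e ^ j : ℝ ≃o ℝ) : ℝ → ℝ) x) -
        Real.log (deriv ((e ^ j : ℝ ≃o ℝ) : ℝ → ℝ) x')| ≤
        C / (x1 - u) * ∑ i ∈ Finset.range j, |(e ^ i) x - (e ^ i) x'| := by
    intro j x hx x' hx'
    exact iter_dist hR he (fun x hx => h.maps' hx) (fun x hx y hy => hC.lip hux hx hy) j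
      (hsub x hx) (hsub x' hx')
  have hD : ∀ j : ℕ, Dle (e ^ j) (c + v) (c + 5 * v) (5 * C) := by
    intro j x hx x' hx'
    refine (hdist j x hx x' hx').trans ?_
    have h2 : ∑ i ∈ Finset.range j, |(e ^ i) x - (e ^ i) x'| ≤ 5 * (x1 - u) :=
      (Finset.sum_le_sum fun i _ => hmono i x hx x' hx').trans (hsum j)
    calc C / (x1 - u) * ∑ i ∈ Finset.range j, |(e ^ i) x - (e ^ i) x'|
        ≤ C / (x1 - u) * (5 * (x1 - u)) := mul_le_mul_of_nonneg_left h2 (by positivity)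
      _ = 5 * C := by field_simp
  have hder : ∀ j : ℕ, ∀ x ∈ Icc (c + v) (c + 5 * v),
      deriv ((e ^ j : ℝ ≃o ℝ) : ℝ → ℝ) x * (4 * v) ≤
        E * ((e ^ j) (c + 5 * v) - (e ^ j) (c + v)) := by
    intro j x hx
    have h2 := (hD j).mul_le hR (Γ.pow_mem he j) (x := c + v) (y := c + 5 * v)
      ⟨le_rfl, by linarith⟩ ⟨by linarith, le_rfl⟩ hx (by linarith)
    have h3 : c + 5 * v - (c + v) = 4 * v := by ring
    rwa [h3] at h2
  have hlip : ∀ j : ℕ, ∀ x ∈ Icc (c + v) (c + 5 * v), ∀ x' ∈ Icc (c + v) (c + 5 * v),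
      |(e ^ j) x - (e ^ j) x'| ≤
        E * ((e ^ j) (c + 5 * v) - (e ^ j) (c + v)) / (4 * v) * |x - x'| := by
    intro j x hx x' hx'
    refine abs_sub_le (hR.diff _ (Γ.pow_mem he j)) (fun p hp => ?_) hx hx'
    rw [le_div_iff₀ (by positivity)]
    exact hder j p hp
  -- the branch
  have hSy : (g * e ^ k) y' = y := by
    show g ((e ^ k) y') = y
    rw [hky, hgz]
  have hkI : ∀ x ∈ Icc (c + v) (c + 5 * v), (e ^ k) x ∈ Icc u z2 := fun x hx =>
    ⟨(h.pow_maps' (hsub x hx) k).1, ((e ^ k).monotone hx.2).trans hw⟩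
  have hSd : ∀ x ∈ Icc (c + v) (c + 5 * v),
      deriv ((g * e ^ k : ℝ ≃o ℝ) : ℝ → ℝ) x ≤ 1 / 4 := by
    intro x hx
    rw [deriv_mul hR hg (Γ.pow_mem he k)]
    have h2 : deriv (g : ℝ → ℝ) ((e ^ k) x) ≤ Q * deriv (g : ℝ → ℝ) u := by
      have h3 := le_of_abs_le (hgd _ (hkI x hx) _ huI)
      have h4 : Real.log (deriv (g : ℝ → ℝ) ((e ^ k) x)) ≤
          G + Real.log (deriv (g : ℝ → ℝ) u) := by linarith
      have h6 := Real.exp_le_exp.2 h4
      rwa [Real.exp_log (hR.pos g hg _), Real.exp_add, ← hQ, Real.exp_log hD0] at h6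
    have h3 := hder k x hx
    have h4 : 0 < deriv ((e ^ k : ℝ ≃o ℝ) : ℝ → ℝ) x := hR.pos _ (Γ.pow_mem he k) x
    obtain ⟨D, hDdef⟩ : ∃ D, D = deriv ((e ^ k : ℝ ≃o ℝ) : ℝ → ℝ) x := ⟨_, rfl⟩
    obtain ⟨P, hPdef⟩ : ∃ P, P = deriv (g : ℝ → ℝ) u := ⟨_, rfl⟩
    rw [← hDdef] at h3 h4 ⊢
    rw [← hPdef] at h1 h2 hD0
    have hE0 : 0 < E := Real.exp_pos _
    have h6 : D * (4 * v) ≤ E * (10 * δ * (z - u)) :=
      h3.trans (mul_le_mul_of_nonneg_left hkd (Real.exp_pos _).le)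
    have h7 : Q * P * (D * (4 * v)) ≤ Q * P * (E * (10 * δ * (z - u))) :=
      mul_le_mul_of_nonneg_left h6 (by positivity)
    have h8 : Q * P * (E * (10 * δ * (z - u))) = 10 * δ * Q * E * (P * (z - u)) := by ring
    have h9 : 10 * δ * Q * E * (P * (z - u)) ≤ 10 * δ * Q * E * (4 * Q * v) :=
      mul_le_mul_of_nonneg_left h1 (by positivity)
    have h9' : 10 * δ * Q * E * (4 * Q * v) = 40 * (δ * (Q * Q) * E) * v := by ring
    have h9'' : 40 * (δ * (Q * Q) * E) * v ≤ 40 * (1 / 1000) * v :=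
      mul_le_mul_of_nonneg_right (by linarith) hv0.le
    have h10 : Q * P * D ≤ 1 / 4 := by
      have h11 : Q * P * D * (4 * v) ≤ 1 / 4 * (4 * v) := by
        have : Q * P * D * (4 * v) = Q * P * (D * (4 * v)) := by ring
        linarith
      exact le_of_mul_le_mul_right h11 (by positivity)
    exact (mul_le_mul_of_nonneg_right h2 h4.le).trans h10
  refine ⟨g * e ^ k, Γ.mul_mem hg (Γ.pow_mem he k), y', hy', hSy, ?_, ?_, ?_⟩
  · intro x hx
    have hy'I : y' ∈ Icc (c + v) (c + 5 * v) := ⟨by linarith [hy'.1], by linarith [hy'.2]⟩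
    have h2 := abs_sub_le (hR.diff _ (Γ.mul_mem hg (Γ.pow_mem he k))) hSd hx hy'I
    have h3 : |x - y'| ≤ c + 5 * v - (c + v) :=
      abs_sub_le_of_le_of_le hx.1 hx.2 hy'I.1 hy'I.2
    rw [hSy] at h2
    have h4 := abs_le.1 h2
    constructor
    · linarith [h4.1, hy.1]
    · linarith [h4.2, hy.2]
  · intro x hx
    linarith [hSd x hx]
  · intro x hx x' hx'
    rw [log_deriv_mul hR hg (Γ.pow_mem he k), log_deriv_mul hR hg (Γ.pow_mem he k),
      add_sub_add_comm]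
    refine (abs_add_le _ _).trans ?_
    have h2 := hLg _ (h.pow_maps' (hsub x hx) k) _ (h.pow_maps' (hsub x' hx') k)
    have h3 := hlip k x hx x' hx'
    have h4 : (e ^ k) (c + 5 * v) - (e ^ k) (c + v) ≤ x1 - u := by
      have h6 := (h.pow_maps' hqI k).2
      have h7 := (h.pow_maps' hpI k).1
      linarith
    have h6 : E * ((e ^ k) (c + 5 * v) - (e ^ k) (c + v)) / (4 * v) * |x - x'| ≤
        E * (x1 - u) / (4 * v) * |x - x'| := by
      refine mul_le_mul_of_nonneg_right ?_ (abs_nonneg _)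
      exact div_le_div_of_nonneg_right (mul_le_mul_of_nonneg_left h4 (Real.exp_pos _).le)
        (by positivity)
    have h7 : Lg * |(e ^ k) x - (e ^ k) x'| ≤ Lg * (E * (x1 - u) / (4 * v) * |x - x'|) :=
      mul_le_mul_of_nonneg_left (h3.trans h6) hLg0
    have h8 := hdist k x hx x' hx'
    have h9 : ∑ i ∈ Finset.range k, |(e ^ i) x - (e ^ i) x'| ≤
        E * (5 * (x1 - u)) / (4 * v) * |x - x'| := by
      refine (Finset.sum_le_sum fun i _ => hlip i x hx x' hx').trans ?_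
      rw [← Finset.sum_mul]
      refine mul_le_mul_of_nonneg_right ?_ (abs_nonneg _)
      rw [← Finset.sum_div, ← Finset.mul_sum]
      exact div_le_div_of_nonneg_right (mul_le_mul_of_nonneg_left (hsum k) (Real.exp_pos _).le)
        (by positivity)
    have h10 := mul_le_mul_of_nonneg_left h9 (show 0 ≤ C / (x1 - u) by positivity)
    linarith

end Pool.Agent.H51.GN
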