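import Mathlib
import Pool.Agent.H51.GN.NC
import Pool.Agent.H24.GN.Def

/-!
# Project GN (MP_20ddb5_an, C^2 Ghys-Sullivan), helper51: the NC lemma for a gap, left end
-/

set_option autoImplicit false
open Set Filter Topology MeasureTheory

namespace Pool.Agent.H51.GN

open Pool.Agent.H24.GN (Gap)

variable {Γ : Subgroup (ℝ ≃o ℝ)}

theorem gap_sign {f : ℝ ≃o ℝ} {a b : ℝ} (h : ∀ x : ℝ, a < x → x < b → f x ≠ x) :
    (∀ x ∈ Ioo a b, f x < x) ∨ (∀ x ∈ Ioo a b, x < f x) := by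
  by_contra hc
  push Not at hc
  obtain ⟨⟨x, hx, hx'⟩, ⟨y, hy, hy'⟩⟩ := hc
  have h1 := isPreconnected_Ioo.intermediate_value₂ hx hy continuousOn_id
    f.continuous.continuousOn (f := id) (g := (f : ℝ → ℝ)) hx' hy'
  obtain ⟨z, hz, hz'⟩ := h1
  exact h z hz.1 hz.2 hz'.symm

/-- bounds of increments when `|log e'| ≤ δ` -/
theorem Ile.low (hR : Reg Γ) {e : ℝ ≃o ℝ} (he : e ∈ Γ) {a b δ : ℝ} (hδ : Ile e a b δ)
    {x y : ℝ} (hx : a ≤ x) (hy : y ≤ b) (hxy : x ≤ y) : (1 - δ) * (y - x) ≤ e y - e x := by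
  refine le_sub (hR.diff e he) hxy fun p hp => ?_
  have h1 := hδ p ⟨hx.trans hp.1, hp.2.trans hy⟩
  have h2 := (abs_le.1 h1).1
  have h3 := Real.exp_le_exp.2 h2
  rw [Real.exp_log (hR.pos e he p)] at h3
  have h4 := Real.add_one_le_exp (-δ)
  linarith

theorem exp_le_two {δ : ℝ} (hδ0 : 0 ≤ δ) (hδ1 : δ ≤ 1 / 2) : Real.exp δ ≤ 1 + 2 * δ := by
  have h4 := Real.add_one_le_exp (-δ)
  have h5 : Real.exp δ * Real.exp (-δ) = 1 := by rw [← Real.exp_add]; simp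
  have h6 : Real.exp δ * (1 - δ) ≤ 1 := by
    rw [← h5]
    exact mul_le_mul_of_nonneg_left (by linarith) (Real.exp_pos _).le
  by_contra hc
  push Not at hc
  nlinarith

theorem Ile.upp (hR : Reg Γ) {e : ℝ ≃o ℝ} (he : e ∈ Γ) {a b δ : ℝ} (hδ : Ile e a b δ)
    (hδ0 : 0 ≤ δ) (hδ1 : δ ≤ 1 / 2)
    {x y : ℝ} (hx : a ≤ x) (hy : y ≤ b) (hxy : x ≤ y) : e y - e x ≤ (1 + 2 * δ) * (y - x) := by
  refine sub_le (hR.diff e he) hxy fun p hp => ?_
  have h1 := hδ p ⟨hx.trans hp.1, hp.2.trans hy⟩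
  have h2 := (abs_le.1 h1).2
  have h3 := Real.exp_le_exp.2 h2
  rw [Real.exp_log (hR.pos e he p)] at h3
  exact h3.trans (exp_le_two hδ0 hδ1)

/-- `f` moves the points of the gap to the left -/
theorem nc_gap_aux (hR : Reg Γ) (hN : NoIFS Γ) {f k : ℝ ≃o ℝ} (hf : f ∈ Γ) (hk : k ∈ Γ)
    {a b x2 B G δ : ℝ} (hgap : Gap f a b) (hmv : ∀ x ∈ Ioo a b, f x < x) (hδ : Ile f a b δ)
    (hB : Nle f a b B) (h1 : a < k a) (h2 : a < x2) (h3 : Dle k a x2 G)
    (h4 : k a + 5 * (k a - f (k a)) ≤ k x2) (h5 : k x2 ≤ b)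
    (hδ1 : δ * (Real.exp G * Real.exp G) * Real.exp (5 * B) ≤ 1 / 1000)
    (hδ2 : 4 * Real.exp G * δ ≤ deriv (k : ℝ → ℝ) a) : False := by
  have hδ0 := hδ.nonneg hgap.lt.le
  have hG0 := h3.nonneg h2.le
  have hB0 := hB.nonneg hgap.lt
  have hcb : k a < b := (k.strictMono h2).trans_le h5
  have hv0 : 0 < k a - f (k a) := by
    have := hmv (k a) ⟨h1, hcb⟩
    linarith
  have hδ3 : δ ≤ 1 / 1000 := by
    have e1 : 1 ≤ Real.exp (5 * B) := Real.one_le_exp (by positivity)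
    have e2 : 1 ≤ Real.exp G := Real.one_le_exp hG0
    have e3 : 1 ≤ Real.exp G * Real.exp G := one_le_mul_of_one_le_of_one_le e2 e2
    have e4 : δ ≤ δ * (Real.exp G * Real.exp G) := le_mul_of_one_le_right hδ0 e3
    have e5 : δ * (Real.exp G * Real.exp G) ≤
        δ * (Real.exp G * Real.exp G) * Real.exp (5 * B) :=
      le_mul_of_one_le_right (by positivity) e1
    linarith
  have h6 := hδ.upp hR hf hδ0 (by linarith) h1.le le_rfl hcb.le
  rw [hgap.fb] at h6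
  have h7 : 2 * δ * (b - k a) ≤ 2 * (1 / 1000) * (b - k a) :=
    mul_le_mul_of_nonneg_right (by linarith) (by linarith)
  have hx1 : k a + 5 * (k a - f (k a)) < b := by linarith
  have hux1 : a < k a + 5 * (k a - f (k a)) := by linarith
  obtain ⟨z2, hz2⟩ : ∃ z2, z2 = (k⁻¹ : ℝ ≃o ℝ) (k a + 5 * (k a - f (k a))) := ⟨_, rfl⟩
  have hkz2 : k z2 = k a + 5 * (k a - f (k a)) := by
    rw [hz2]; exact RelIso.apply_inv_self k _
  have hz2x2 : z2 ≤ x2 := by rw [← k.le_iff_le, hkz2]; exact h4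
  exact nc_core hR hN hf hk hux1 hgap.fa (fun x hx => hmv x ⟨hx.1, hx.2.trans_lt hx1⟩)
    (hδ.sub le_rfl hx1.le) (hB.sub' hgap.lt le_rfl hux1.le hx1.le) hδ1 rfl h1 (by linarith) rfl
    le_rfl hkz2 (h3.sub le_rfl hz2x2) hδ2

theorem nc_gap (hR : Reg Γ) (hN : NoIFS Γ) {f k : ℝ ≃o ℝ} (hf : f ∈ Γ) (hk : k ∈ Γ)
    {a b x2 B G δ : ℝ} (hgap : Gap f a b) (hδ : Ile f a b δ)
    (hB : Nle f a b B) (h1 : a < k a) (h2 : a < x2) (h3 : Dle k a x2 G)
    (h4 : k a + 6 * |f (k a) - k a| ≤ k x2) (h5 : k x2 ≤ b)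
    (hδ1 : δ * (Real.exp G * Real.exp G) * Real.exp (15 * B) ≤ 1 / 1000)
    (hδ2 : 4 * Real.exp G * δ ≤ deriv (k : ℝ → ℝ) a) : False := by
  have hδ0 := hδ.nonneg hgap.lt.le
  have hG0 := h3.nonneg h2.le
  have hB0 := hB.nonneg hgap.lt
  have hcb : k a < b := (k.strictMono h2).trans_le h5
  have hδ3 : δ ≤ 1 / 1000 := by
    have e1 : 1 ≤ Real.exp (15 * B) := Real.one_le_exp (by positivity)
    have e2 : 1 ≤ Real.exp G := Real.one_le_exp hG0
    have e3 : 1 ≤ Real.exp G * Real.exp G := one_le_mul_of_one_le_of_one_le e2 e2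
    have e4 : δ ≤ δ * (Real.exp G * Real.exp G) := le_mul_of_one_le_right hδ0 e3
    have e5 : δ * (Real.exp G * Real.exp G) ≤
        δ * (Real.exp G * Real.exp G) * Real.exp (15 * B) :=
      le_mul_of_one_le_right (by positivity) e1
    linarith
  rcases gap_sign hgap.ne with hs | hs
  · have hv := hs (k a) ⟨h1, hcb⟩
    refine nc_gap_aux hR hN hf hk hgap hs hδ hB h1 h2 h3 ?_ h5 ?_ hδ2
    · rw [abs_sub_comm, abs_of_pos (by linarith)] at h4
      linarith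
    · have e1 : Real.exp (5 * B) ≤ Real.exp (15 * B) := Real.exp_le_exp.2 (by linarith)
      have e2 := mul_le_mul_of_nonneg_left e1
        (show 0 ≤ δ * (Real.exp G * Real.exp G) by positivity)
      linarith
  · have hinv : ∀ x : ℝ, f ((f⁻¹ : ℝ ≃o ℝ) x) = x := fun x => RelIso.apply_inv_self f x
    have hfa : (f⁻¹ : ℝ ≃o ℝ) a = a := by
      have := hinv a
      rw [← hgap.fa] at this
      have h6 := f.injective this
      rw [hgap.fa] at h6
      exact h6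
    have hfb : (f⁻¹ : ℝ ≃o ℝ) b = b := by
      have := hinv b
      rw [← hgap.fb] at this
      have h6 := f.injective this
      rw [hgap.fb] at h6
      exact h6
    have hms : ∀ x ∈ Ioo a b, (f⁻¹ : ℝ ≃o ℝ) x ∈ Ioo a b := by
      intro x hx
      constructor
      · rw [← f.lt_iff_lt, hinv, hgap.fa]; exact hx.1
      · rw [← f.lt_iff_lt, hinv, hgap.fb]; exact hx.2
    have hms' : ∀ x ∈ Ioo a b, (f⁻¹ : ℝ ≃o ℝ) x < x := by
      intro x hx
      have := hs _ (hms x hx)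
      rwa [hinv] at this
    have hgap' : Gap f⁻¹ a b := ⟨hgap.lt, hfa, hfb, fun x h6 h7 => (hms' x ⟨h6, h7⟩).ne⟩
    have hI : Ile f⁻¹ a b δ := by
      have := hδ.inv hR hf
      rwa [hgap.fa, hgap.fb] at this
    have hNi : Nle f⁻¹ a b (3 * B) := by
      have h6 := Nle.inv hR hf hgap.lt hδ.dle hB
      rw [hgap.fa, hgap.fb] at h6
      refine h6.mono (mul_le_mul_of_nonneg_right ?_ hB0)
      have := exp_le_two (δ := 2 * δ) (by linarith) (by linarith)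
      linarith
    refine nc_gap_aux hR hN (Γ.inv_mem hf) hk hgap' hms' hI hNi h1 h2 h3 ?_ h5 ?_ hδ2
    · have hc := hms (k a) ⟨h1, hcb⟩
      have hlt := hms' (k a) ⟨h1, hcb⟩
      have hlt' := hs (k a) ⟨h1, hcb⟩
      have h6 := hδ.low hR hf hc.1.le hcb.le hlt.le
      rw [hinv] at h6
      rw [abs_of_pos (by linarith)] at h4
      have h7 : δ * (k a - (f⁻¹ : ℝ ≃o ℝ) (k a)) ≤ 1 / 1000 * (k a - (f⁻¹ : ℝ ≃o ℝ) (k a)) :=
        mul_le_mul_of_nonneg_right hδ3 (by linarith)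
      linarith
    · have e1 : 5 * (3 * B) = 15 * B := by ring
      rw [e1]
      exact hδ1

end Pool.Agent.H51.GN
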