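import Mathlib
import Pool.Agent.H51.GN.NcGap
import Pool.Agent.H51.GN.IfsCon

/-!
# Project GN (MP_20ddb5_an, C^2 Ghys-Sullivan), helper51: near-identity elements fix hyperbolic points

Let `q` fix `y` with `q'(y) < 1`.  There are `M, η, ρ` such that no `t` in `Γ` with
`0 < v = |t y - y| < ρ` satisfies `|log t'| ≤ η` on `[y - M v, y + M v]`: the maps `q t^j`, `|j| ≤ J`,
would cover `[y - 2v, y + 2v]` by contracted copies.
-/

set_option autoImplicit false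
open Set Filter Topology MeasureTheory

namespace Pool.Agent.H51.GN

variable {Γ : Subgroup (ℝ ≃o ℝ)}

/-- iterates of a map which moves the points near `y` by at most `2 v` -/
theorem hyp_pow (hR : Reg Γ) {U : ℝ ≃o ℝ} (hU : U ∈ Γ) {y v R η : ℝ} (hv : 0 < v)
    (h : ∀ x, |x - y| ≤ R * v → |U x - x| ≤ 2 * v ∧
      |Real.log (deriv (U : ℝ → ℝ) x)| ≤ η) (n : ℕ) (hn : 3 + 2 * (n : ℝ) ≤ R) {x : ℝ}
    (hx : |x - y| ≤ 3 * v) : |(U ^ n) x - y| ≤ (3 + 2 * n) * v ∧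
      |Real.log (deriv ((U ^ n : ℝ ≃o ℝ) : ℝ → ℝ) x)| ≤ n * η := by
  induction n with
  | zero =>
    rw [pow_zero, log_deriv_one]
    simp only [Nat.cast_zero, mul_zero, add_zero, abs_zero, zero_mul, le_refl, and_true]
    exact hx
  | succ n ih =>
    push_cast at hn
    obtain ⟨h1, h2⟩ := ih (by linarith)
    have h3 : |(U ^ n) x - y| ≤ R * v := h1.trans (mul_le_mul_of_nonneg_right (by linarith) hv.le)
    obtain ⟨h4, h5⟩ := h _ h3
    rw [pow_succ', log_deriv_mul hR hU (Γ.pow_mem hU n), RelIso.mul_apply]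
    push_cast
    constructor
    · have : U ((U ^ n) x) - y = (U ((U ^ n) x) - (U ^ n) x) + ((U ^ n) x - y) := by ring
      rw [this]
      refine (abs_add_le _ _).trans ?_
      linarith
    · refine (abs_add_le _ _).trans ?_
      linarith

/-- bounds for the inverse map -/
theorem hyp_inv (hR : Reg Γ) {t : ℝ ≃o ℝ} (ht : t ∈ Γ) {y v s M η : ℝ} (hs : |s| = v)
    (h : ∀ x, |x - y| ≤ M * v → |t x - x - s| ≤ v / 2 ∧
      |Real.log (deriv (t : ℝ → ℝ) x)| ≤ η) {x : ℝ} (hx : |x - y| ≤ (M - 2) * v) (hv : 0 < v) :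
    |(t⁻¹ : ℝ ≃o ℝ) x - x - (-s)| ≤ v / 2 ∧
      |Real.log (deriv ((t⁻¹ : ℝ ≃o ℝ) : ℝ → ℝ) x)| ≤ η := by
  have hinv : t ((t⁻¹ : ℝ ≃o ℝ) x) = x := RelIso.apply_inv_self t x
  have hs' := abs_le.1 hs.le
  have hx' := abs_le.1 hx
  have h1 : (t⁻¹ : ℝ ≃o ℝ) x ≤ x + 2 * v := by
    rw [← t.le_iff_le, hinv]
    have h2 := (h (x + 2 * v) (by rw [abs_le]; constructor <;> linarith)).1
    have h3 := (abs_le.1 h2).1
    linarith
  have h2 : x - 2 * v ≤ (t⁻¹ : ℝ ≃o ℝ) x := by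
    rw [← t.le_iff_le, hinv]
    have h2 := (h (x - 2 * v) (by rw [abs_le]; constructor <;> linarith)).1
    have h3 := (abs_le.1 h2).2
    linarith
  obtain ⟨h3, h4⟩ := h ((t⁻¹ : ℝ ≃o ℝ) x) (by rw [abs_le]; constructor <;> linarith)
  rw [hinv] at h3
  constructor
  · rw [abs_sub_comm] at h3
    convert h3 using 2
    ring
  · have h5 := log_deriv_inv hR ht ((t⁻¹ : ℝ ≃o ℝ) x)
    rw [hinv] at h5
    rw [h5, abs_neg]
    exact h4

/-- the walk: if `A` moves the points near `y` to the right by `v/2` to `3v/2`, every `z` with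
`|z - y| ≤ J v / 2` is `A^j w`, `y ≤ w ≤ A y`, `|j| ≤ J` -/
theorem hyp_walk {A : ℝ ≃o ℝ} {y v : ℝ} {J : ℕ}
    (hup : y + J * (v / 2) ≤ (A ^ J) y) (hlo : ((A⁻¹) ^ J) y ≤ y - J * (v / 2)) (hA : y < A y)
    {z : ℝ} (hz : |z - y| ≤ J * (v / 2)) :
    ∃ j : ℤ, -(J : ℤ) ≤ j ∧ j ≤ J ∧ ∃ w : ℝ, y ≤ w ∧ w ≤ A y ∧ (A ^ j) w = z := by
  classical
  have hz' := abs_le.1 hz
  have hb : ∀ n : ℕ, (A ^ n) (((A⁻¹) ^ J) y) = (A ^ ((n : ℤ) - J)) y := by
    intro n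
    rw [← RelIso.mul_apply, zpow_sub, zpow_natCast, zpow_natCast, inv_pow]
  have hex : ∃ n : ℕ, z < (A ^ n) (((A⁻¹) ^ J) y) := by
    refine ⟨2 * J + 1, ?_⟩
    rw [hb]
    have e1 : (((2 * J + 1 : ℕ) : ℤ) - J) = ((J + 1 : ℕ) : ℤ) := by push_cast; ring
    rw [e1, zpow_natCast, pow_succ, RelIso.mul_apply]
    have h1 := (A ^ J).strictMono hA
    linarith
  set n := Nat.find hex with hn
  have hn1 : z < (A ^ n) (((A⁻¹) ^ J) y) := Nat.find_spec hex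
  have hnle : n ≤ 2 * J + 1 := by
    refine Nat.find_min' hex ?_
    rw [hb]
    have e1 : (((2 * J + 1 : ℕ) : ℤ) - J) = ((J + 1 : ℕ) : ℤ) := by push_cast; ring
    rw [e1, zpow_natCast, pow_succ, RelIso.mul_apply]
    have h1 := (A ^ J).strictMono hA
    linarith
  have hn0 : n ≠ 0 := by
    intro h0
    rw [h0] at hn1
    have : (A ^ 0 : ℝ ≃o ℝ) (((A⁻¹) ^ J) y) = ((A⁻¹) ^ J) y := rfl
    rw [this] at hn1
    linarith
  obtain ⟨m, hm⟩ := Nat.exists_eq_succ_of_ne_zero hn0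
  have hn2 : (A ^ m) (((A⁻¹) ^ J) y) ≤ z := by
    have := Nat.find_min hex (m := m) (by omega)
    exact not_lt.1 this
  rw [hb] at hn1 hn2
  have hzz : (A ^ ((m : ℤ) - J)) (((A ^ ((m : ℤ) - J))⁻¹ : ℝ ≃o ℝ) z) = z :=
    RelIso.apply_inv_self _ z
  refine ⟨(m : ℤ) - J, by omega, by omega, ((A ^ ((m : ℤ) - J))⁻¹ : ℝ ≃o ℝ) z, ?_, ?_, hzz⟩
  · rw [← (A ^ ((m : ℤ) - J)).le_iff_le, hzz]
    exact hn2
  · rw [← (A ^ ((m : ℤ) - J)).le_iff_le, hzz, ← RelIso.mul_apply, ← zpow_add_one]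
    have e1 : (n : ℤ) - J = (m : ℤ) - J + 1 := by rw [hm]; push_cast; ring
    rw [e1] at hn1
    exact hn1.le

/-- the main step -/
theorem hyp_core (hR : Reg Γ) (hN : NoIFS Γ) {q A : ℝ ≃o ℝ} (hq : q ∈ Γ) (hA : A ∈ Γ)
    {y v θ η r0 : ℝ} {J : ℕ} (hv : 0 < v) (hqy : q y = y) (hθ0 : 0 < θ) (hθ : θ ≤ 1 / 20)
    (hJ : 5 / θ ≤ J) (hJη : J * η ≤ 1 / 8)
    (hq' : ∀ x, |x - y| ≤ r0 → 9 / 10 * θ ≤ deriv (q : ℝ → ℝ) x ∧
      deriv (q : ℝ → ℝ) x ≤ 11 / 10 * θ)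
    (hr : (3 + 2 * J) * v ≤ r0)
    (hA1 : ∀ x, |x - y| ≤ (3 + 2 * J) * v → |A x - x - v| ≤ v / 2 ∧
      |Real.log (deriv (A : ℝ → ℝ) x)| ≤ η)
    (hA2 : ∀ x, |x - y| ≤ (3 + 2 * J) * v → |(A⁻¹ : ℝ ≃o ℝ) x - x - (-v)| ≤ v / 2 ∧
      |Real.log (deriv ((A⁻¹ : ℝ ≃o ℝ) : ℝ → ℝ) x)| ≤ η) : False := by
  have hJ' : (0 : ℝ) ≤ J := Nat.cast_nonneg J
  have hη : 0 ≤ η := (abs_nonneg _).trans (hA1 y (by rw [sub_self, abs_zero]; positivity)).2
  -- bounds for the powers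
  have hP1 : ∀ x, |x - y| ≤ (3 + 2 * J) * v → |A x - x| ≤ 2 * v ∧
      |Real.log (deriv (A : ℝ → ℝ) x)| ≤ η := by
    intro x hx
    obtain ⟨h1, h2⟩ := hA1 x hx
    have h3 := abs_le.1 h1
    exact ⟨by rw [abs_le]; constructor <;> linarith, h2⟩
  have hP2 : ∀ x, |x - y| ≤ (3 + 2 * J) * v → |(A⁻¹ : ℝ ≃o ℝ) x - x| ≤ 2 * v ∧
      |Real.log (deriv ((A⁻¹ : ℝ ≃o ℝ) : ℝ → ℝ) x)| ≤ η := by
    intro x hx
    obtain ⟨h1, h2⟩ := hA2 x hx
    have h3 := abs_le.1 h1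
    exact ⟨by rw [abs_le]; constructor <;> linarith, h2⟩
  have hpow : ∀ j : ℤ, -(J : ℤ) ≤ j → j ≤ J → ∀ x, |x - y| ≤ 3 * v →
      |(A ^ j) x - y| ≤ (3 + 2 * J) * v ∧
        |Real.log (deriv ((A ^ j : ℝ ≃o ℝ) : ℝ → ℝ) x)| ≤ 1 / 8 := by
    intro j hj1 hj2 x hx
    rcases le_or_gt 0 j with hj | hj
    · obtain ⟨n, rfl⟩ := Int.eq_ofNat_of_zero_le hj
      have hn : (n : ℝ) ≤ J := by exact_mod_cast hj2
      obtain ⟨h1, h2⟩ := hyp_pow hR hA hv hP1 n (by linarith) hx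
      rw [zpow_natCast]
      refine ⟨h1.trans (mul_le_mul_of_nonneg_right (by linarith) hv.le), h2.trans ?_⟩
      exact (mul_le_mul_of_nonneg_right hn hη).trans hJη
    · obtain ⟨n, hn'⟩ := Int.eq_ofNat_of_zero_le (show 0 ≤ -j by omega)
      have hn : (n : ℝ) ≤ J := by
        have : (n : ℤ) ≤ J := by omega
        exact_mod_cast this
      obtain ⟨h1, h2⟩ := hyp_pow hR (Γ.inv_mem hA) hv hP2 n (by linarith) hx
      have hjn : A ^ j = (A⁻¹) ^ n := by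
        have : j = -(n : ℤ) := by omega
        rw [this, zpow_neg, zpow_natCast, inv_pow]
      rw [hjn]
      refine ⟨h1.trans (mul_le_mul_of_nonneg_right (by linarith) hv.le), h2.trans ?_⟩
      exact (mul_le_mul_of_nonneg_right hn hη).trans hJη
  -- the orbit of `y`
  have hup : ∀ n : ℕ, n ≤ J → y + n * (v / 2) ≤ (A ^ n) y := by
    intro n
    induction n with
    | zero => intro _; simp
    | succ n ih =>
      intro hn
      have h1 := ih (by omega)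
      have hnJ : (n : ℝ) ≤ J := by
        have : n ≤ J := by omega
        exact_mod_cast this
      have h2 := (hyp_pow hR hA hv hP1 n (by linarith) (x := y)
        (by rw [sub_self, abs_zero]; positivity)).1
      have h3 := (hA1 _ (h2.trans (mul_le_mul_of_nonneg_right (by linarith) hv.le))).1
      have h4 := (abs_le.1 h3).1
      rw [pow_succ', RelIso.mul_apply]
      push_cast
      linarith
  have hlo : ∀ n : ℕ, n ≤ J → ((A⁻¹) ^ n) y ≤ y - n * (v / 2) := by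
    intro n
    induction n with
    | zero => intro _; simp
    | succ n ih =>
      intro hn
      have h1 := ih (by omega)
      have hnJ : (n : ℝ) ≤ J := by
        have : n ≤ J := by omega
        exact_mod_cast this
      have h2 := (hyp_pow hR (Γ.inv_mem hA) hv hP2 n (by linarith) (x := y)
        (by rw [sub_self, abs_zero]; positivity)).1
      have h3 := (hA2 _ (h2.trans (mul_le_mul_of_nonneg_right (by linarith) hv.le))).1
      have h4 := (abs_le.1 h3).2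
      rw [pow_succ', RelIso.mul_apply]
      push_cast
      linarith
  have hAy := (abs_le.1 (hA1 y (by rw [sub_self, abs_zero]; positivity)).1)
  -- Lipschitz constants
  have hLex : ∀ j : ℤ, ∃ L : ℝ, 0 ≤ L ∧ ∀ x ∈ Icc (y - 3 * v) (y + 3 * v),
      ∀ x' ∈ Icc (y - 3 * v) (y + 3 * v),
      |Real.log (deriv ((q * A ^ j : ℝ ≃o ℝ) : ℝ → ℝ) x) -
        Real.log (deriv ((q * A ^ j : ℝ ≃o ℝ) : ℝ → ℝ) x')| ≤ L * |x - x'| := fun j =>
    hR.lip _ (Γ.mul_mem hq (Γ.zpow_mem hA j)) _ _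
  choose Lj hLj0 hLj using hLex
  refine hN (y - 3 * v) (y - 2 * v) (y + 2 * v) (y + 3 * v)
    (∑ j ∈ Finset.Icc (-(J : ℤ)) J, Lj j) (by linarith) (by linarith) (by linarith)
    fun x' hx' => ?_
  -- the preimage
  obtain ⟨z, hz⟩ : ∃ z, z = (q⁻¹ : ℝ ≃o ℝ) x' := ⟨_, rfl⟩
  have hqz : q z = x' := by rw [hz]; exact RelIso.apply_inv_self q x'
  obtain ⟨r1, hr1⟩ : ∃ r1, r1 = 5 / 2 * v / θ := ⟨_, rfl⟩
  have hr1θ : r1 * θ = 5 / 2 * v := by rw [hr1]; field_simp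
  have hr10 : 0 < r1 := by rw [hr1]; positivity
  have hr1J : r1 ≤ J * (v / 2) := by
    have h1 := mul_le_mul_of_nonneg_right hJ (show 0 ≤ v / 2 by positivity)
    refine le_trans (le_of_eq ?_) h1
    rw [hr1]
    ring
  have hr1r0 : r1 ≤ r0 := by
    have : (J : ℝ) * (v / 2) ≤ (3 + 2 * J) * v := by nlinarith
    linarith
  have hzr : |z - y| ≤ r1 := by
    have h1 : 9 / 10 * θ * (y + r1 - y) ≤ q (y + r1) - q y := by
      refine le_sub (hR.diff q hq) (by linarith) fun p hp => (hq' p ?_).1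
      rw [abs_le]
      constructor <;> linarith [hp.1, hp.2]
    have h2 : 9 / 10 * θ * (y - (y - r1)) ≤ q y - q (y - r1) := by
      refine le_sub (hR.diff q hq) (by linarith) fun p hp => (hq' p ?_).1
      rw [abs_le]
      constructor <;> linarith [hp.1, hp.2]
    rw [hqy] at h1 h2
    rw [abs_le]
    constructor
    · have : y - r1 ≤ z := by
        rw [← q.le_iff_le, hqz]
        nlinarith [hx'.1]
      linarith
    · have : z ≤ y + r1 := by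
        rw [← q.le_iff_le, hqz]
        nlinarith [hx'.2]
      linarith
  obtain ⟨j, hj1, hj2, w, hw1, hw2, hwz⟩ := hyp_walk (hup J le_rfl) (hlo J le_rfl)
    (by linarith) (hzr.trans hr1J)
  have hSw : (q * A ^ j) w = x' := by
    show q ((A ^ j) w) = x'
    rw [hwz, hqz]
  have hSd : ∀ x ∈ Icc (y - 3 * v) (y + 3 * v),
      deriv ((q * A ^ j : ℝ ≃o ℝ) : ℝ → ℝ) x ≤ 1 / 10 := by
    intro x hx
    have hx3 : |x - y| ≤ 3 * v := by rw [abs_le]; constructor <;> linarith [hx.1, hx.2]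
    obtain ⟨h1, h2⟩ := hpow j hj1 hj2 x hx3
    rw [deriv_mul hR hq (Γ.zpow_mem hA j)]
    have h3 := (hq' _ (h1.trans hr)).2
    have h4 := Real.exp_le_exp.2 (abs_le.1 h2).2
    rw [Real.exp_log (hR.pos _ (Γ.zpow_mem hA j) x)] at h4
    have h5 := exp_le_two (δ := 1 / 8) (by norm_num) (by norm_num)
    have h6 := hR.pos _ (Γ.zpow_mem hA j) x
    have h7 : deriv (q : ℝ → ℝ) ((A ^ j) x) * deriv ((A ^ j : ℝ ≃o ℝ) : ℝ → ℝ) x ≤
        (11 / 10 * θ) * (5 / 4) := by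
      refine mul_le_mul h3 (by linarith) h6.le (by positivity)
    linarith
  have hwI : w ∈ Icc (y - 3 * v) (y + 3 * v) := ⟨by linarith, by linarith⟩
  refine ⟨q * A ^ j, Γ.mul_mem hq (Γ.zpow_mem hA j), w, ⟨by linarith, by linarith⟩, hSw, ?_, ?_,
    ?_⟩
  · intro x hx
    have h2 := abs_sub_le (hR.diff _ (Γ.mul_mem hq (Γ.zpow_mem hA j))) hSd hx hwI
    have h3 : |x - w| ≤ y + 3 * v - (y - 3 * v) :=
      abs_sub_le_of_le_of_le hx.1 hx.2 hwI.1 hwI.2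
    rw [hSw] at h2
    have h4 := abs_le.1 h2
    constructor
    · linarith [h4.1, hx'.1]
    · linarith [h4.2, hx'.2]
  · intro x hx
    linarith [hSd x hx]
  · intro x hx x'' hx''
    refine (hLj j x hx x'' hx'').trans (mul_le_mul_of_nonneg_right ?_ (abs_nonneg _))
    exact Finset.single_le_sum (f := Lj) (fun i _ => hLj0 i) (Finset.mem_Icc.2 ⟨hj1, hj2⟩)

/-- powers at a fixed point -/
theorem deriv_pow_fix (hR : Reg Γ) {q : ℝ ≃o ℝ} (hq : q ∈ Γ) {y : ℝ} (hqy : q y = y) (n : ℕ) :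
    (q ^ n) y = y ∧ deriv ((q ^ n : ℝ ≃o ℝ) : ℝ → ℝ) y = deriv (q : ℝ → ℝ) y ^ n := by
  induction n with
  | zero =>
    refine ⟨rfl, ?_⟩
    have : ((q ^ 0 : ℝ ≃o ℝ) : ℝ → ℝ) = fun x => x := rfl
    rw [this]; simp
  | succ n ih =>
    constructor
    · rw [pow_succ', RelIso.mul_apply, ih.1, hqy]
    · rw [pow_succ', deriv_mul hR hq (Γ.pow_mem hq n), ih.1, ih.2, pow_succ']

theorem hyp_aux (hR : Reg Γ) (hN : NoIFS Γ) {q : ℝ ≃o ℝ} (hq : q ∈ Γ) {y : ℝ} (hqy : q y = y)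
    (hq1 : deriv (q : ℝ → ℝ) y ≤ 1 / 20) :
    ∃ M η ρ : ℝ, 1 ≤ M ∧ 0 < η ∧ 0 < ρ ∧ ∀ t ∈ Γ, |t y - y| < ρ →
      (∀ x, |x - y| ≤ M * |t y - y| → |Real.log (deriv (t : ℝ → ℝ) x)| ≤ η) → t y = y := by
  obtain ⟨θ, hθ⟩ : ∃ θ, θ = deriv (q : ℝ → ℝ) y := ⟨_, rfl⟩
  have hθ0 : 0 < θ := by rw [hθ]; exact hR.pos q hq y
  rw [← hθ] at hq1
  obtain ⟨L, hL0, hL⟩ := hR.lip q hq (y - 1) (y + 1)
  obtain ⟨r0, hr0⟩ : ∃ r0, r0 = min 1 (1 / 20 / (L + 1)) := ⟨_, rfl⟩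
  have hr0pos : 0 < r0 := by rw [hr0]; exact lt_min (by norm_num) (by positivity)
  have hq' : ∀ x, |x - y| ≤ r0 → 9 / 10 * θ ≤ deriv (q : ℝ → ℝ) x ∧
      deriv (q : ℝ → ℝ) x ≤ 11 / 10 * θ := by
    intro x hx
    have h1 : r0 ≤ 1 := by rw [hr0]; exact min_le_left _ _
    have h2 : r0 ≤ 1 / 20 / (L + 1) := by rw [hr0]; exact min_le_right _ _
    have hx1 := abs_le.1 (hx.trans h1)
    have h3 := hL x ⟨by linarith [hx1.1], by linarith [hx1.2]⟩ y ⟨by linarith, by linarith⟩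
    have h4 : L * |x - y| ≤ 1 / 20 := by
      have h5 : L * |x - y| ≤ (L + 1) * (1 / 20 / (L + 1)) :=
        mul_le_mul (by linarith) (hx.trans h2) (abs_nonneg _) (by linarith)
      have h6 : (L + 1) * (1 / 20 / (L + 1)) = 1 / 20 := by field_simp
      linarith
    rw [← hθ] at h3
    have h5 := abs_le.1 (h3.trans h4)
    have h6 : Real.log (deriv (q : ℝ → ℝ) x) ≤ 1 / 20 + Real.log θ := by linarith [h5.2]
    have h7 : -(1 / 20) + Real.log θ ≤ Real.log (deriv (q : ℝ → ℝ) x) := by linarith [h5.1]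
    have h8 := Real.exp_le_exp.2 h6
    have h9 := Real.exp_le_exp.2 h7
    rw [Real.exp_add, Real.exp_log hθ0, Real.exp_log (hR.pos q hq x)] at h8 h9
    have h10 := exp_le_two (δ := 1 / 20) (by norm_num) (by norm_num)
    have h11 := Real.add_one_le_exp (-(1 / 20 : ℝ))
    constructor
    · refine le_trans ?_ h9
      exact mul_le_mul_of_nonneg_right (by linarith) hθ0.le
    · refine le_trans h8 ?_
      exact mul_le_mul_of_nonneg_right (by linarith) hθ0.le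
  obtain ⟨J, hJ⟩ := exists_nat_ge (5 / θ)
  have hJ' : (0 : ℝ) ≤ J := Nat.cast_nonneg J
  obtain ⟨M, hM⟩ : ∃ M : ℝ, M = 5 + 2 * J := ⟨_, rfl⟩
  obtain ⟨η, hη⟩ : ∃ η : ℝ, η = 1 / (8 * M) := ⟨_, rfl⟩
  have hM1 : 5 ≤ M := by rw [hM]; linarith
  have hη0 : 0 < η := by rw [hη]; positivity
  have hηM : η * M = 1 / 8 := by rw [hη]; field_simp
  have hη1 : η ≤ 1 / 8 := by nlinarith
  refine ⟨M, η, r0 / M, by linarith, hη0, by positivity, fun t ht htv hd => ?_⟩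
  by_contra hne
  obtain ⟨v, hv⟩ : ∃ v, v = |t y - y| := ⟨_, rfl⟩
  rw [← hv] at htv hd
  have hv0 : 0 < v := by rw [hv]; exact abs_pos.2 (sub_ne_zero.2 hne)
  have hvr : M * v ≤ r0 := by
    rw [lt_div_iff₀ (by linarith)] at htv
    linarith
  have hMI : Ile t (y - M * v) (y + M * v) η := fun x hx => hd x (by
    rw [abs_le]; constructor <;> linarith [hx.1, hx.2])
  have hMv : 0 ≤ M * v := by positivity
  -- displacement of `t`
  have hdisp : ∀ x, |x - y| ≤ M * v → |t x - x - (t y - y)| ≤ v / 2 := by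
    intro x hx
    have hx' := abs_le.1 hx
    have hηMv : η * (M * v) = v / 8 := by rw [← mul_assoc, hηM]; ring
    rcases le_total x y with hxy | hxy
    · have h1 := hMI.low hR ht (x := x) (y := y) (by linarith) (by linarith) hxy
      have h2 := hMI.upp hR ht hη0.le (by linarith) (x := x) (y := y) (by linarith)
        (by linarith) hxy
      have h3 : η * (y - x) ≤ η * (M * v) := mul_le_mul_of_nonneg_left (by linarith) hη0.le
      rw [abs_le]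
      constructor <;> nlinarith
    · have h1 := hMI.low hR ht (x := y) (y := x) (by linarith) (by linarith) hxy
      have h2 := hMI.upp hR ht hη0.le (by linarith) (x := y) (y := x) (by linarith)
        (by linarith) hxy
      have h3 : η * (x - y) ≤ η * (M * v) := mul_le_mul_of_nonneg_left (by linarith) hη0.le
      rw [abs_le]
      constructor <;> nlinarith
  have hd1 : ∀ x, |x - y| ≤ M * v → |t x - x - (t y - y)| ≤ v / 2 ∧
      |Real.log (deriv (t : ℝ → ℝ) x)| ≤ η := fun x hx => ⟨hdisp x hx, hd x hx⟩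
  have hd2 : ∀ x, |x - y| ≤ (M - 2) * v → |(t⁻¹ : ℝ ≃o ℝ) x - x - (-(t y - y))| ≤ v / 2 ∧
      |Real.log (deriv ((t⁻¹ : ℝ ≃o ℝ) : ℝ → ℝ) x)| ≤ η := fun x hx =>
    hyp_inv hR ht hv.symm hd1 hx hv0
  have hM2 : M - 2 = 3 + 2 * J := by rw [hM]; ring
  have hle : ∀ x, |x - y| ≤ (3 + 2 * J) * v → |x - y| ≤ M * v := fun x hx =>
    hx.trans (mul_le_mul_of_nonneg_right (by linarith) hv0.le)
  rw [hM2] at hd2
  have hJη : J * η ≤ 1 / 8 := by
    have h1 : (J : ℝ) ≤ M := by rw [hM]; linarith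
    have h2 := mul_le_mul_of_nonneg_right h1 hη0.le
    linarith
  have hr : (3 + 2 * (J : ℝ)) * v ≤ r0 := le_trans (mul_le_mul_of_nonneg_right (by linarith)
    hv0.le) hvr
  rcases lt_or_gt_of_ne hne with hlt | hgt
  · have e1 : t y - y = -v := by rw [hv, abs_of_neg (by linarith)]; ring
    rw [e1] at hd1 hd2
    rw [neg_neg] at hd2
    refine hyp_core hR hN hq (Γ.inv_mem ht) hv0 hqy hθ0 hq1 hJ hJη hq' hr hd2 ?_
    rw [inv_inv]
    exact fun x hx => hd1 x (hle x hx)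
  · have e1 : t y - y = v := by rw [hv, abs_of_pos (by linarith)]
    rw [e1] at hd1 hd2
    exact hyp_core hR hN hq ht hv0 hqy hθ0 hq1 hJ hJη hq' hr (fun x hx => hd1 x (hle x hx)) hd2

/-- near-identity elements fix hyperbolic points -/
theorem hyp_fix (hR : Reg Γ) (hN : NoIFS Γ) {q : ℝ ≃o ℝ} (hq : q ∈ Γ) {y : ℝ} (hqy : q y = y)
    (hq1 : deriv (q : ℝ → ℝ) y < 1) :
    ∃ M η ρ : ℝ, 1 ≤ M ∧ 0 < η ∧ 0 < ρ ∧ ∀ t ∈ Γ, |t y - y| < ρ →
      (∀ x, |x - y| ≤ M * |t y - y| → |Real.log (deriv (t : ℝ → ℝ) x)| ≤ η) → t y = y := by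
  obtain ⟨n, hn⟩ := exists_pow_lt_of_lt_one (show (0 : ℝ) < 1 / 20 by norm_num) hq1
  obtain ⟨h1, h2⟩ := deriv_pow_fix hR hq hqy n
  exact hyp_aux hR hN (Γ.pow_mem hq n) h1 (by rw [h2]; exact hn.le)

end Pool.Agent.H51.GN
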