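import Mathlib
import Pool.Agent.H51.GN.Ifs
import Pool.Agent.H50.GSD.D17
import Pool.Agent.H50.GSD.D3
import Pool.Agent.H50.GS.RenAux

/-!
# Project GN (MP_20ddb5_an, C^2 Ghys-Sullivan), helper51: a minimal group of C^2 diffeomorphisms which
is not ergodic satisfies `NoIFS`
-/

set_option autoImplicit false
open Set Filter Topology MeasureTheory

namespace Pool.Agent.H51.GN

variable {Γ : Subgroup (ℝ ≃o ℝ)}

theorem noIFS_of_set (hR : Reg Γ) {A : Set ℝ} (hA : MeasurableSet A)
    (hinv : ∀ f ∈ Γ, ∀ x, f x ∈ A ↔ x ∈ A)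
    (hvol : ∀ x y : ℝ, x < y → volume (A ∩ Ioo x y) ≠ 0 ∧ volume (Ioo x y \ A) ≠ 0) :
    NoIFS Γ := by
  intro p p' q' q L hp hpq hq h
  have hseq := fun y hy n => ifs_seq hR hp hpq hq h (y := y) hy n
  -- a density point
  have hae := Besicovitch.ae_tendsto_measure_inter_div_of_measurableSet (volume : Measure ℝ)
    hA.compl
  obtain ⟨y, hyA, hyd⟩ : ∃ y ∈ A ∩ Ioo p' q', Tendsto (fun r => volume (Aᶜ ∩
      Metric.closedBall y r) / volume (Metric.closedBall y r)) (𝓝[>] 0)
      (𝓝 (Aᶜ.indicator 1 y)) := by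
    by_contra hc
    push Not at hc
    apply (hvol p' q' hpq).1
    refine measure_mono_null ?_ (ae_iff.1 hae)
    intro y hy
    exact hc y hy
  have hind : Aᶜ.indicator (1 : ℝ → ENNReal) y = 0 := by
    rw [indicator_of_notMem]
    simpa using hyA.1
  rw [hind] at hyd
  have hyI : y ∈ Icc p' q' := Ioo_subset_Icc_self hyA.2
  choose W hW z hz hWz hWm hWd hWl using hseq y hyI
  set K : ℝ := Real.exp (-(2 * L * (q - p))) / (q' - p') with hK
  have hKpos : 0 < K := div_pos (Real.exp_pos _) (by linarith)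
  set r : ℕ → ℝ := fun n => W n q' - W n p' with hr
  have hrpos : ∀ n, 0 < r n := fun n => sub_pos.2 ((W n).strictMono hpq)
  have hp'I : p' ∈ Icc p q := ⟨hp, by linarith⟩
  have hq'I : q' ∈ Icc p q := ⟨by linarith, hq⟩
  have hrle : ∀ n, r n ≤ (1 / 2) ^ n * (q' - p') := by
    intro n
    exact sub_le (hR.diff _ (hW n)) hpq.le (fun x hx => hWd n x ⟨hp.trans hx.1, hx.2.trans hq⟩)
  have hrt : Tendsto r atTop (𝓝[>] 0) := by
    rw [tendsto_nhdsWithin_iff]
    refine ⟨?_, Eventually.of_forall fun n => hrpos n⟩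
    have h1 : Tendsto (fun n : ℕ => (1 / 2 : ℝ) ^ n * (q' - p')) atTop (𝓝 (0 * (q' - p'))) :=
      (tendsto_pow_atTop_nhds_zero_of_lt_one (by norm_num) (by norm_num)).mul_const _
    rw [zero_mul] at h1
    exact squeeze_zero (fun n => (hrpos n).le) hrle h1
  -- lower bound of the derivative
  have hlow : ∀ n, ∀ x ∈ Icc p' q', K * r n ≤ deriv (W n : ℝ → ℝ) x := by
    intro n x hx
    obtain ⟨ξ, hξ, hξ'⟩ := exists_deriv_eq_slope (W n : ℝ → ℝ) hpq
      ((hR.diff _ (hW n)).continuous.continuousOn) ((hR.diff _ (hW n)).differentiableOn)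
    have hxI : x ∈ Icc p q := ⟨hp.trans hx.1, hx.2.trans hq⟩
    have hξI : ξ ∈ Icc p q := ⟨hp.trans hξ.1.le, hξ.2.le.trans hq⟩
    have h1 := hWl n ξ hξI x hxI
    have hL : 0 ≤ L := by
      have h2 := hWl n q' hq'I p' hp'I
      have h3 : 0 < |q' - p'| := abs_pos.2 (by linarith)
      have h4 := (abs_nonneg _).trans h2
      by_contra hc
      push Not at hc
      nlinarith
    have h2 : |ξ - x| ≤ q - p := by
      rw [abs_le]
      constructor <;> linarith [hxI.1, hxI.2, hξI.1, hξI.2]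
    have h3 : Real.log (deriv (W n : ℝ → ℝ) ξ) - 2 * L * (q - p) ≤
        Real.log (deriv (W n : ℝ → ℝ) x) := by
      have h5 := le_of_abs_le h1
      have h6 : 2 * L * |ξ - x| ≤ 2 * L * (q - p) :=
        mul_le_mul_of_nonneg_left h2 (by positivity)
      linarith
    have h4 := Real.exp_le_exp.2 h3
    rw [Real.exp_log (hR.pos _ (hW n) x), sub_eq_add_neg, Real.exp_add,
      Real.exp_log (hR.pos _ (hW n) ξ), hξ'] at h4
    refine le_trans (le_of_eq ?_) h4
    rw [hK]
    ring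
  -- the images
  set E : Set ℝ := Ioo p' q' \ A with hE
  have hEm : MeasurableSet E := measurableSet_Ioo.diff hA
  have himg : ∀ n, ENNReal.ofReal (K * r n) * volume E ≤
      volume (Aᶜ ∩ Metric.closedBall y (r n)) := by
    intro n
    have h1 : (W n : ℝ → ℝ) '' E ⊆ Aᶜ ∩ Metric.closedBall y (r n) := by
      rintro _ ⟨x, ⟨hx, hxA⟩, rfl⟩
      refine ⟨fun h => hxA ((hinv _ (hW n) x).1 h), ?_⟩
      rw [Metric.mem_closedBall, Real.dist_eq, ← hWz n, abs_le]
      have h2 := (W n).monotone hx.1.le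
      have h3 := (W n).monotone hx.2.le
      have h4 := (W n).monotone (hz n).1
      have h5 := (W n).monotone (hz n).2
      constructor <;> simp only [hr] <;> linarith
    refine le_trans ?_ (measure_mono h1)
    have hd : ∀ y, HasDerivAt (W n : ℝ → ℝ) (deriv (W n : ℝ → ℝ) y) y := fun y =>
      (hR.diff _ (hW n) y).hasDerivAt
    have h2 := lintegral_image_eq_lintegral_abs_deriv_mul hEm
      (fun x _ => (hd x).hasDerivWithinAt) ((W n).injective.injOn) (fun _ => 1)
    rw [setLIntegral_one] at h2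
    rw [h2, ← setLIntegral_const]
    refine setLIntegral_mono' hEm fun x hx => ?_
    rw [mul_one]
    refine ENNReal.ofReal_le_ofReal ?_
    rw [abs_of_pos (hR.pos _ (hW n) x)]
    exact hlow n x (Ioo_subset_Icc_self hx.1)
  have hquot : ∀ n, ENNReal.ofReal (K / 2) * volume E ≤
      volume (Aᶜ ∩ Metric.closedBall y (r n)) / volume (Metric.closedBall y (r n)) := by
    intro n
    rw [Real.volume_closedBall, ENNReal.le_div_iff_mul_le
      (Or.inl (ENNReal.ofReal_pos.2 (by linarith [hrpos n])).ne') (Or.inl ENNReal.ofReal_ne_top)]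
    refine le_trans (le_of_eq ?_) (himg n)
    rw [mul_right_comm, ← ENNReal.ofReal_mul (by positivity)]
    congr 2
    ring
  have hlim := ge_of_tendsto (hyd.comp hrt) (Eventually.of_forall hquot)
  have h0 : ENNReal.ofReal (K / 2) * volume E = 0 := le_antisymm hlim bot_le
  rcases mul_eq_zero.1 h0 with h1 | h1
  · exact absurd (ENNReal.ofReal_eq_zero.1 h1) (not_le.2 (by positivity))
  · exact (hvol p' q' hpq).2 h1

open Pool.Agent.H50.GS Pool.Agent.H50.GSD in
/-- elements of `Lf G` are C² with positive derivative -/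
theorem Lf_c2p {G : Subgroup (Circle ≃ₜ Circle)} (hC : C2Group G) {f : ℝ ≃o ℝ}
    (hf : f ∈ Lf G) : C2p f := by
  obtain ⟨g, hg, hgf⟩ := hf
  obtain ⟨u, hu1, hu2, hu3⟩ := hC g hg
  obtain ⟨m, hm⟩ := lifts_diff f.continuous hu1.continuous (fun t => by rw [hgf t, hu3 t])
  have h1 : (f : ℝ → ℝ) = fun t => u t + m * (2 * Real.pi) := funext hm
  refine ⟨by rw [h1]; exact hu1.add contDiff_const, fun t => ?_⟩
  have h2 : deriv (f : ℝ → ℝ) t = deriv u t := by rw [h1, deriv_add_const]
  have h3 : 0 ≤ deriv (f : ℝ → ℝ) t := f.monotone.deriv_nonneg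
  rw [h2] at h3 ⊢
  exact lt_of_le_of_ne h3 (hu2 t).symm

open Pool.Agent.H50.GS Pool.Agent.H50.GSD in
theorem Lf_reg {G : Subgroup (Circle ≃ₜ Circle)} (hC : C2Group G) : Reg (Lf G) where
  diff f hf := (Lf_c2p hC hf).1.differentiable (by norm_num)
  pos f hf := (Lf_c2p hC hf).2
  lip f hf a b := lip_log_deriv (Lf_c2p hC hf).1 (Lf_c2p hC hf).2 a b

open Pool.Agent.H50.GS Pool.Agent.H50.GSD in
/-- a minimal group of C² diffeomorphisms which is not ergodic has no covering contracting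
system -/
theorem noIFS {G : Subgroup (Circle ≃ₜ Circle)} (hC : C2Group G) (hm : Minimal G)
    (hne : ¬ LebErgodic G) : NoIFS (Lf G) := by
  obtain ⟨A, hA, hinv, hvol⟩ := inv_set hC hm hne
  exact noIFS_of_set (Lf_reg hC) hA hinv hvol

end Pool.Agent.H51.GN
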